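import Pool.Agent.Omino.Frame

set_option autoImplicit false

namespace Pool.Agent.Omino

open Set Topology ComplexConjugate MeasureTheory

theorem continuous_fr (α β : ℂ) : Continuous (fr α β) := by
  unfold fr; fun_prop

theorem norm_fr_sub {α : ℂ} (h : ‖α‖ = 1) (β w w' : ℂ) : ‖fr α β w - fr α β w'‖ = ‖w - w'‖ := by
  have : fr α β w - fr α β w' = conj α * (w - w') := by unfold fr; ring
  rw [this, norm_mul, RCLike.norm_conj, h, one_mul]

/-- centre of a cell -/
noncomputable def cen (c : ℤ × ℤ) : ℂ := ⟨(c.1:ℝ) + 1/2, (c.2:ℝ) + 1/2⟩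

theorem cen_re (c : ℤ × ℤ) : (cen c).re = (c.1:ℝ) + 1/2 := rfl
theorem cen_im (c : ℤ × ℤ) : (cen c).im = (c.2:ℝ) + 1/2 := rfl

theorem ball_subset_cell (c : ℤ × ℤ) : Metric.ball (cen c) (1/2) ⊆ cell c := by
  intro w hw
  rw [Metric.mem_ball, Complex.dist_eq] at hw
  have h1 := (Complex.abs_re_le_norm (w - cen c)).trans_lt hw
  have h2 := (Complex.abs_im_le_norm (w - cen c)).trans_lt hw
  rw [Complex.sub_re, cen_re, abs_lt] at h1
  rw [Complex.sub_im, cen_im, abs_lt] at h2
  refine ⟨?_, ?_, ?_, ?_⟩ <;> linarith [h1.1, h1.2, h2.1, h2.2]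

theorem Framed.ball_subset {n : ℕ} {T : Set ℂ} {α β : ℂ} {S : Finset (ℤ × ℤ)}
    (h : Framed n T α β S) {c : ℤ × ℤ} (hc : c ∈ S) :
    Metric.ball (α * cen c + β) (1/2) ⊆ interior T := by
  apply interior_maximal _ Metric.isOpen_ball
  intro w hw
  rw [h.eq, mem_preimage, mem_region]
  refine ⟨c, hc, ball_subset_cell c ?_⟩
  rw [Metric.mem_ball, Complex.dist_eq] at hw ⊢
  rw [← norm_fr_sub h.norm β, fr_apply h.norm] at hw
  exact hw

theorem Framed.isClosed {n : ℕ} {T : Set ℂ} {α β : ℂ} {S : Finset (ℤ × ℤ)}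
    (h : Framed n T α β S) : IsClosed T := by
  rw [h.eq]; exact (isClosed_region S).preimage (continuous_fr _ _)

theorem dist_cen_le {c : ℤ × ℤ} {z : ℂ} (h : z ∈ cell c) : ‖z - cen c‖ ≤ 1 := by
  obtain ⟨h1, h2, h3, h4⟩ := h
  refine (Complex.norm_le_abs_re_add_abs_im _).trans ?_
  rw [Complex.sub_re, Complex.sub_im, cen_re, cen_im]
  have a1 : |z.re - ((c.1:ℝ) + 1/2)| ≤ 1/2 := by rw [abs_le]; constructor <;> linarith
  have a2 : |z.im - ((c.2:ℝ) + 1/2)| ≤ 1/2 := by rw [abs_le]; constructor <;> linarith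
  linarith

theorem locallyFinite_tiles {n : ℕ} {𝒯 : Set (Set ℂ)} (hT : IsTiling 𝒯) (hO : ByOminoes n 𝒯) :
    LocallyFinite (fun T : 𝒯 => (T : Set ℂ)) := by
  intro x
  refine ⟨Metric.ball x 1, Metric.ball_mem_nhds x one_pos, ?_⟩
  -- choose centres
  have hex : ∀ T : {T : 𝒯 // ((T : Set ℂ) ∩ Metric.ball x 1).Nonempty}, ∃ p : ℂ,
      Metric.ball p (1/2) ⊆ interior (T.1 : Set ℂ) ∧ Metric.ball p (1/2) ⊆ Metric.ball x 3 := by
    rintro ⟨⟨T, hT'⟩, w, hw, hwx⟩
    obtain ⟨α, β, S, hF⟩ := exists_framed (hO T hT')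
    simp only at hw
    have hw2 := hw
    rw [hF.eq, mem_preimage, mem_region] at hw2
    obtain ⟨c, hc, hwc⟩ := hw2
    refine ⟨α * cen c + β, hF.ball_subset hc, ?_⟩
    have h1 : ‖w - (α * cen c + β)‖ ≤ 1 := by
      rw [← norm_fr_sub hF.norm β, fr_apply hF.norm]
      exact dist_cen_le hwc
    intro y hy
    rw [Metric.mem_ball, Complex.dist_eq] at hy hwx ⊢
    have : y - x = (y - (α * cen c + β)) - (w - (α * cen c + β)) + (w - x) := by ring
    rw [this]
    calc _ ≤ ‖(y - (α * cen c + β)) - (w - (α * cen c + β))‖ + ‖w - x‖ := norm_add_le _ _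
      _ ≤ ‖y - (α * cen c + β)‖ + ‖w - (α * cen c + β)‖ + ‖w - x‖ := by
          gcongr; exact norm_sub_le _ _
      _ < 3 := by linarith
  choose p hp1 hp2 using hex
  have hfin := Measure.finite_const_le_meas_of_disjoint_iUnion (volume : Measure ℂ)
    (ε := volume (Metric.ball (0:ℂ) (1/2)))
    (Metric.measure_ball_pos _ _ (by norm_num))
    (As := fun T => Metric.ball (p T) (1/2))
    (fun _ => Metric.isOpen_ball.measurableSet)
    (by
      intro T T' hne
      have hne2 : (T.1 : Set ℂ) ≠ (T'.1 : Set ℂ) := fun h => hne (Subtype.ext (Subtype.ext h))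
      exact (hT.disjoint _ T.1.2 _ T'.1.2 hne2).mono (hp1 T) (hp1 T'))
    (by
      apply ne_of_lt
      calc volume (⋃ T, Metric.ball (p T) (1/2)) ≤ volume (Metric.ball x 3) :=
            measure_mono (iUnion_subset hp2)
        _ < ⊤ := measure_ball_lt_top)
  have huniv : {T | volume (Metric.ball (0:ℂ) (1/2)) ≤ volume (Metric.ball (p T) (1/2))} = univ := by
    ext T
    simp only [mem_ofPred_eq, mem_univ, iff_true]
    exact (Measure.addHaar_ball_center volume (p T) (1/2)).ge
  rw [huniv] at hfin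
  have : Finite {T : 𝒯 // ((T : Set ℂ) ∩ Metric.ball x 1).Nonempty} := finite_univ_iff.1 hfin
  exact Set.finite_coe_iff.1 this

theorem mid_mem {c : ℤ × ℤ} {z w : ℂ} (hz : z ∈ cell c) (hw : w ∈ cell c)
    (h1 : (w - z).re ≠ 0) (h2 : (w - z).im ≠ 0) : (z + w) / 2 ∈ interior (cell c) := by
  rw [cell_eq, interior_rect]
  obtain ⟨a1, a2, a3, a4⟩ := hz
  obtain ⟨b1, b2, b3, b4⟩ := hw
  have e1 : ((z + w) / 2).re = (z.re + w.re) / 2 := by
    have : (z + w) / 2 = (z + w) * ((1/2 : ℝ) : ℂ) := by push_cast; ring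
    rw [this, Complex.re_mul_ofReal]; simp; ring
  have e2 : ((z + w) / 2).im = (z.im + w.im) / 2 := by
    have : (z + w) / 2 = (z + w) * ((1/2 : ℝ) : ℂ) := by push_cast; ring
    rw [this, Complex.im_mul_ofReal]; simp; ring
  simp only [mem_ofPred_eq, e1, e2]
  rw [Complex.sub_re, sub_ne_zero] at h1
  rw [Complex.sub_im, sub_ne_zero] at h2
  refine ⟨?_, ?_, ?_, ?_⟩
  · rcases lt_or_gt_of_ne h1 with h | h <;> linarith
  · rcases lt_or_gt_of_ne h1 with h | h <;> linarith
  · rcases lt_or_gt_of_ne h2 with h | h <;> linarith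
  · rcases lt_or_gt_of_ne h2 with h | h <;> linarith

theorem cell_subset_closure (c : ℤ × ℤ) : cell c ⊆ closure (interior (cell c)) := by
  have hne : (interior (cell c)).Nonempty :=
    ⟨cen c, interior_maximal (ball_subset_cell c) Metric.isOpen_ball (Metric.mem_ball_self (by norm_num))⟩
  have hconv : Convex ℝ (cell c) := convex_rect _ _ _ _
  rw [hconv.closure_interior_eq_closure_of_nonempty_interior hne]
  exact subset_closure

/-- frame map as a homeomorphism -/
noncomputable def frH (α β : ℂ) (h : ‖α‖ = 1) : ℂ ≃ₜ ℂ where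
  toFun := fr α β
  invFun := fun z => α * z + β
  left_inv := fun w => fr_apply' h β w
  right_inv := fun z => fr_apply h β z
  continuous_toFun := continuous_fr α β
  continuous_invFun := by fun_prop

theorem placed_subset_closure {α : ℂ} (h : ‖α‖ = 1) (β : ℂ) (c : ℤ × ℤ) :
    (fr α β) ⁻¹' (cell c) ⊆ closure ((fr α β) ⁻¹' (interior (cell c))) := by
  have := (frH α β h).preimage_closure (interior (cell c))
  change (fr α β) ⁻¹' (closure (interior (cell c))) = closure ((fr α β) ⁻¹' (interior (cell c))) at this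
  rw [← this]
  exact preimage_mono (cell_subset_closure c)

theorem mid_fr (α β z w : ℂ) : fr α β ((z + w) / 2) = (fr α β z + fr α β w) / 2 := by
  unfold fr; ring

theorem dir_of_disjoint {α β α' β' : ℂ} {c c' : ℤ × ℤ} (h : ‖α‖ = 1) (h' : ‖α'‖ = 1)
    (hd : Disjoint ((fr α β) ⁻¹' interior (cell c)) ((fr α' β') ⁻¹' interior (cell c')))
    {p q : ℂ} (hp : fr α β p ∈ cell c) (hq : fr α β q ∈ cell c) (hp' : fr α' β' p ∈ cell c')
    (hq' : fr α' β' q ∈ cell c') :
    (conj α * (q - p)).re = 0 ∨ (conj α * (q - p)).im = 0 := by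
  by_contra hcon
  push Not at hcon
  obtain ⟨c1, c2⟩ := hcon
  have e : fr α β q - fr α β p = conj α * (q - p) := by unfold fr; ring
  rw [← e] at c1 c2
  have hm := mid_mem hp hq c1 c2
  rw [← mid_fr] at hm
  have hm' : (p + q) / 2 ∈ (fr α' β') ⁻¹' cell c' := by
    rw [mem_preimage, mid_fr]
    have hconv : Convex ℝ (cell c') := convex_rect _ _ _ _
    have := hconv hp' hq' (by norm_num : (0:ℝ) ≤ 1/2) (by norm_num : (0:ℝ) ≤ 1/2) (by norm_num)
    convert this using 1
    simp only [Complex.real_smul]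
    push_cast
    ring
  have hm'' := placed_subset_closure h' β' c' hm'
  rw [mem_closure_iff] at hm''
  obtain ⟨y, hy1, hy2⟩ := hm'' _ (isOpen_interior.preimage (continuous_fr α β)) hm
  exact (Set.disjoint_left.1 hd) hy1 hy2

theorem cells_inter {α β α' β' : ℂ} {c c' : ℤ × ℤ} (h : ‖α‖ = 1) (h' : ‖α'‖ = 1)
    (ax : α.re = 0 ∨ α.im = 0) (nax : α'.re ≠ 0 ∧ α'.im ≠ 0)
    (hd : Disjoint ((fr α β) ⁻¹' interior (cell c)) ((fr α' β') ⁻¹' interior (cell c'))) :
    ((fr α β) ⁻¹' cell c ∩ (fr α' β') ⁻¹' cell c').Subsingleton := by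
  rintro p ⟨hp, hp'⟩ q ⟨hq, hq'⟩
  have d1 := dir_of_disjoint h h' hd hp hq hp' hq'
  have d2 := dir_of_disjoint h' h hd.symm hp' hq' hp hq
  set v := q - p with hv
  have hv0 : v = 0 := by
    rw [Complex.mul_re, Complex.mul_im, Complex.conj_re, Complex.conj_im] at d1 d2
    have hn : α.re * α.re + α.im * α.im = 1 := by
      have := Complex.normSq_eq_norm_sq α
      rw [h, Complex.normSq_apply] at this
      linarith
    have key : v.re = 0 ∨ v.im = 0 := by
      rcases ax with ax | ax
      · have hi : α.im ≠ 0 := by rintro h0; rw [ax, h0] at hn; norm_num at hn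
        rw [ax] at d1
        rcases d1 with d1 | d1
        · right
          have : α.im * v.im = 0 := by linarith
          exact (mul_eq_zero.1 this).resolve_left hi
        · left
          have : α.im * v.re = 0 := by linarith
          exact (mul_eq_zero.1 this).resolve_left hi
      · have hi : α.re ≠ 0 := by rintro h0; rw [ax, h0] at hn; norm_num at hn
        rw [ax] at d1
        rcases d1 with d1 | d1
        · left
          have : α.re * v.re = 0 := by linarith
          exact (mul_eq_zero.1 this).resolve_left hi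
        · right
          have : α.re * v.im = 0 := by linarith
          exact (mul_eq_zero.1 this).resolve_left hi
    rcases key with k | k
    · rw [k] at d2
      rcases d2 with d2 | d2
      · have : α'.im * v.im = 0 := by linarith
        exact Complex.ext k ((mul_eq_zero.1 this).resolve_left nax.2)
      · have : α'.re * v.im = 0 := by linarith
        exact Complex.ext k ((mul_eq_zero.1 this).resolve_left nax.1)
    · rw [k] at d2
      rcases d2 with d2 | d2
      · have : α'.re * v.re = 0 := by linarith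
        exact Complex.ext ((mul_eq_zero.1 this).resolve_left nax.1) k
      · have : α'.im * v.re = 0 := by linarith
        exact Complex.ext ((mul_eq_zero.1 this).resolve_left nax.2) k
  rw [hv, sub_eq_zero] at hv0
  exact hv0.symm

theorem Framed.interior_cell {n : ℕ} {T : Set ℂ} {α β : ℂ} {S : Finset (ℤ × ℤ)}
    (h : Framed n T α β S) {c : ℤ × ℤ} (hc : c ∈ S) :
    (fr α β) ⁻¹' interior (cell c) ⊆ interior T := by
  apply interior_maximal _ (isOpen_interior.preimage (continuous_fr α β))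
  rw [h.eq]
  apply preimage_mono
  refine interior_subset.trans ?_
  intro z hz
  exact mem_region.2 ⟨c, hc, hz⟩

/-- intersection of an aligned and a non-aligned tile is countable -/
theorem tiles_inter {n : ℕ} {T T' : Set ℂ} {α β α' β' : ℂ} {S S' : Finset (ℤ × ℤ)}
    (h : Framed n T α β S) (h' : Framed n T' α' β' S') (ax : α.re = 0 ∨ α.im = 0)
    (nax : α'.re ≠ 0 ∧ α'.im ≠ 0) (hd : Disjoint (interior T) (interior T')) :
    (T ∩ T').Countable := by
  have hsub : T ∩ T' ⊆ ⋃ c ∈ S, ⋃ c' ∈ S', ((fr α β) ⁻¹' cell c ∩ (fr α' β') ⁻¹' cell c') := by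
    rintro z ⟨hz, hz'⟩
    rw [h.eq, mem_preimage, mem_region] at hz
    rw [h'.eq, mem_preimage, mem_region] at hz'
    obtain ⟨c, hc, hzc⟩ := hz
    obtain ⟨c', hc', hzc'⟩ := hz'
    simp only [mem_iUnion]
    exact ⟨c, hc, c', hc', hzc, hzc'⟩
  refine Countable.mono hsub ?_
  refine S.countable_toSet.biUnion (fun c hc => S'.countable_toSet.biUnion (fun c' hc' => ?_))
  exact (cells_inter h.norm h'.norm ax nax
    (hd.mono (h.interior_cell hc) (h'.interior_cell hc'))).countable

/-- a framed tile with at least one cell is not countable -/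
theorem Framed.not_countable {n : ℕ} {T : Set ℂ} {α β : ℂ} {S : Finset (ℤ × ℤ)}
    (h : Framed n T α β S) (hn : 0 < n) : ¬ T.Countable := by
  intro hc
  have hS : S.Nonempty := by
    rw [← Finset.card_pos, h.card]; exact hn
  obtain ⟨c, hcS⟩ := hS
  have h1 := hc.mono ((h.ball_subset hcS).trans interior_subset)
  have h2 : volume (Metric.ball (α * cen c + β) (1/2)) = 0 := h1.measure_zero _
  have h3 := Metric.measure_ball_pos (volume : Measure ℂ) (α * cen c + β) (by norm_num : (0:ℝ) < 1/2)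
  rw [h2] at h3
  exact lt_irrefl _ h3

/-- If one tile is aligned, all tiles are aligned. -/
theorem all_aligned {n : ℕ} (hn : 0 < n) {𝒯 : Set (Set ℂ)} (hT : IsTiling 𝒯)
    (hO : ByOminoes n 𝒯) {T0 : Set ℂ} (hT0 : T0 ∈ 𝒯) (h0 : ∃ α β S, Framed n T0 α β S ∧
      (α.re = 0 ∨ α.im = 0)) :
    ∀ T ∈ 𝒯, ∃ β S, Framed n T 1 β S := by
  classical
  let Al : Set ℂ → Prop := fun T => ∃ α β S, Framed n T α β S ∧ (α.re = 0 ∨ α.im = 0)
  let A : Set ℂ := ⋃ T : 𝒯, (if Al T then (T : Set ℂ) else ∅)
  let B : Set ℂ := ⋃ T : 𝒯, (if Al T then ∅ else (T : Set ℂ))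
  have hlf := locallyFinite_tiles hT hO
  have hA : IsClosed A := by
    apply LocallyFinite.isClosed_iUnion
    · refine hlf.subset (fun T => ?_)
      by_cases h : Al T <;> simp [h]
    · intro T
      by_cases h : Al T
      · simp only [h, if_true]; exact hT.closed _ T.2
      · simp [h]
  have hB : IsClosed B := by
    apply LocallyFinite.isClosed_iUnion
    · refine hlf.subset (fun T => ?_)
      by_cases h : Al T <;> simp [h]
    · intro T
      by_cases h : Al T
      · simp [h]
      · simp only [h, if_false]; exact hT.closed _ T.2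
  have hAB : A ∪ B = univ := by
    rw [eq_univ_iff_forall]
    intro z
    have hz : z ∈ ⋃₀ 𝒯 := by rw [hT.cover]; trivial
    obtain ⟨T, hT1, hz⟩ := hz
    by_cases h : Al T
    · left
      refine mem_iUnion.2 ⟨⟨T, hT1⟩, ?_⟩
      simp only [h, if_true]; exact hz
    · right
      refine mem_iUnion.2 ⟨⟨T, hT1⟩, ?_⟩
      simp only [h, if_false]; exact hz
  have hcount : (A ∩ B).Countable := by
    have hc𝒯 : Countable 𝒯 := hT.countable.to_subtype
    have : A ∩ B ⊆ ⋃ T : 𝒯, ⋃ T' : 𝒯, (if Al T ∧ ¬ Al T' then (T : Set ℂ) ∩ T' else ∅) := by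
      rintro z ⟨hz, hz'⟩
      obtain ⟨T, hz⟩ := mem_iUnion.1 hz
      obtain ⟨T', hz'⟩ := mem_iUnion.1 hz'
      refine mem_iUnion.2 ⟨T, mem_iUnion.2 ⟨T', ?_⟩⟩
      by_cases h : Al T
      · by_cases h' : Al T'
        · simp [h'] at hz'
        · simp only [h, if_true] at hz
          simp only [h', if_false] at hz'
          simp only [h, h', not_false_eq_true, and_self, if_true]
          exact ⟨hz, hz'⟩
      · simp [h] at hz
    refine Countable.mono this (countable_iUnion fun T => countable_iUnion fun T' => ?_)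
    by_cases h : Al T ∧ ¬ Al T'
    · simp only [h, not_false_eq_true, and_self, if_true]
      obtain ⟨⟨α, β, S, hF, hax⟩, h'⟩ := h
      obtain ⟨α', β', S', hF'⟩ := exists_framed (hO T' T'.2)
      have hne : (T : Set ℂ) ≠ T' := by
        intro heq
        exact h' (heq ▸ ⟨α, β, S, hF, hax⟩)
      refine tiles_inter hF hF' hax ?_ (hT.disjoint _ T.2 _ T'.2 hne)
      constructor
      · intro h1; exact h' ⟨α', β', S', hF', Or.inl h1⟩
      · intro h1; exact h' ⟨α', β', S', hF', Or.inr h1⟩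
    · simp only [h, if_false]; exact countable_empty
  have hconn : IsPreconnected ((A ∩ B)ᶜ) :=
    (hcount.isPathConnected_compl_of_one_lt_rank one_lt_rank_complex).isConnected.isPreconnected
  rw [isPreconnected_closed_iff] at hconn
  intro T hTm
  obtain ⟨α, β, S, hF⟩ := exists_framed (hO T hTm)
  by_cases hAl : Al T
  · obtain ⟨α, β, S, hF, hax⟩ := hAl
    exact ⟨β, hF.aligned hax⟩
  · exfalso
    obtain ⟨α0, β0, S0, hF0, hax0⟩ := h0
    have hT0A : T0 ⊆ A := by
      intro z hz
      refine mem_iUnion.2 ⟨⟨T0, hT0⟩, ?_⟩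
      have : Al T0 := ⟨α0, β0, S0, hF0, hax0⟩
      simp only [this, if_true]; exact hz
    have hTB : T ⊆ B := by
      intro z hz
      refine mem_iUnion.2 ⟨⟨T, hTm⟩, ?_⟩
      simp only [hAl, if_false]; exact hz
    have n1 : (T0 \ (A ∩ B)).Nonempty := by
      by_contra h
      rw [not_nonempty_iff_eq_empty, sdiff_eq_empty] at h
      exact hF0.not_countable hn (hcount.mono h)
    have n2 : (T \ (A ∩ B)).Nonempty := by
      by_contra h
      rw [not_nonempty_iff_eq_empty, sdiff_eq_empty] at h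
      exact hF.not_countable hn (hcount.mono h)
    obtain ⟨z1, hz1, hz1'⟩ := n1
    obtain ⟨z2, hz2, hz2'⟩ := n2
    obtain ⟨z, hz, hz'⟩ := hconn A B hA hB (by rw [hAB]; exact subset_univ _)
      ⟨z1, hz1', hT0A hz1⟩ ⟨z2, hz2', hTB hz2⟩
    exact hz hz'

end Pool.Agent.Omino
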