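import Mathlib

set_option autoImplicit false

namespace Pool.Agent.Omino

open Set Topology

/-- Gluing: replacing the piece `B` of `A ∪ B` by `B'` along a homeomorphism which is the identity
on `A ∩ B`. -/
theorem glue {A B B' : Set ℂ} (hA : IsClosed A) (hB : IsClosed B) (hB' : IsClosed B')
    (h : ℂ ≃ₜ ℂ) (him : h '' B = B') (hfix : ∀ z ∈ A ∩ B, h z = z) (hint : A ∩ B = A ∩ B') :
    Nonempty (↥(A ∪ B) ≃ₜ ↥(A ∪ B')) := by
  classical
  let f : ℂ → ℂ := fun z => if z ∈ A then z else h z
  let g : ℂ → ℂ := fun z => if z ∈ A then z else h.symm z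
  have fA : ∀ z ∈ A, f z = z := fun z hz => if_pos hz
  have gA : ∀ z ∈ A, g z = z := fun z hz => if_pos hz
  have fB : ∀ z ∈ B, f z = h z := by
    intro z hz
    by_cases hzA : z ∈ A
    · rw [fA z hzA, hfix z ⟨hzA, hz⟩]
    · exact if_neg hzA
  have gB : ∀ z ∈ B', g z = h.symm z := by
    intro z hz
    by_cases hzA : z ∈ A
    · have hz2 : z ∈ A ∩ B := by rw [hint]; exact ⟨hzA, hz⟩
      rw [gA z hzA, eq_comm, h.symm_apply_eq, hfix z hz2]
    · exact if_neg hzA
  have hmB : ∀ z ∈ B, h z ∈ B' := fun z hz => him ▸ mem_image_of_mem h hz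
  have hmB' : ∀ z ∈ B', h.symm z ∈ B := by
    intro z hz
    rw [← him] at hz
    obtain ⟨w, hw, rfl⟩ := hz
    simpa using hw
  have mf : MapsTo f (A ∪ B) (A ∪ B') := by
    rintro z (hz | hz)
    · left; rw [fA z hz]; exact hz
    · right; rw [fB z hz]; exact hmB z hz
  have mg : MapsTo g (A ∪ B') (A ∪ B) := by
    rintro z (hz | hz)
    · left; rw [gA z hz]; exact hz
    · right; rw [gB z hz]; exact hmB' z hz
  have cf : ContinuousOn f (A ∪ B) := by
    apply ContinuousOn.union_of_isClosed _ _ hA hB
    · exact continuousOn_id.congr fA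
    · exact h.continuous.continuousOn.congr fB
  have cg : ContinuousOn g (A ∪ B') := by
    apply ContinuousOn.union_of_isClosed _ _ hA hB'
    · exact continuousOn_id.congr gA
    · exact h.symm.continuous.continuousOn.congr gB
  refine ⟨{ toFun := fun z => ⟨f z, mf z.2⟩, invFun := fun z => ⟨g z, mg z.2⟩,
            left_inv := ?_, right_inv := ?_, continuous_toFun := ?_, continuous_invFun := ?_ }⟩
  · rintro ⟨z, hz⟩
    apply Subtype.ext
    rcases hz with hz | hz
    · show g (f z) = z
      rw [fA z hz, gA z hz]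
    · show g (f z) = z
      rw [fB z hz, gB _ (hmB z hz)]
      simp
  · rintro ⟨z, hz⟩
    apply Subtype.ext
    rcases hz with hz | hz
    · show f (g z) = z
      rw [gA z hz, fA z hz]
    · show f (g z) = z
      rw [gB z hz, fB _ (hmB' z hz)]
      simp
  · exact (cf.mapsToRestrict mf)
  · exact (cg.mapsToRestrict mg)

theorem glue_convex {A B B' : Set ℂ} (hA : IsClosed A) (hB : IsClosed B) (hB' : IsClosed B')
    (cB : Convex ℝ B) (cB' : Convex ℝ B') (bB : Bornology.IsBounded B)
    (bB' : Bornology.IsBounded B') (m : ℂ) (hm : m ∈ interior B) (hm' : m ∈ interior B')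
    (hint : A ∩ B = A ∩ B') (hfr : A ∩ B ⊆ frontier B ∩ frontier B') :
    Nonempty (↥(A ∪ B) ≃ₜ ↥(A ∪ B')) := by
  let τ : ℂ ≃ₜ ℂ := Homeomorph.addLeft m
  have τa : ∀ z, τ z = m + z := fun z => rfl
  let s : Set ℂ := τ ⁻¹' B
  let t : Set ℂ := τ ⁻¹' B'
  have cs : Convex ℝ s := by
    have := cB.translate_preimage_right m
    simpa [s, τ] using this
  have ct : Convex ℝ t := by
    have := cB'.translate_preimage_right m
    simpa [t, τ] using this
  have s0 : s ∈ 𝓝 (0:ℂ) := by
    apply τ.continuous.continuousAt.preimage_mem_nhds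
    rw [τa, add_zero]
    exact mem_interior_iff_mem_nhds.1 hm
  have t0 : t ∈ 𝓝 (0:ℂ) := by
    apply τ.continuous.continuousAt.preimage_mem_nhds
    rw [τa, add_zero]
    exact mem_interior_iff_mem_nhds.1 hm'
  have bs : Bornology.IsBounded s := by
    have : s = (fun z => -m + z) '' B := by
      ext z
      simp only [s, mem_preimage, τa, mem_image]
      constructor
      · intro hz; exact ⟨m + z, hz, by ring⟩
      · rintro ⟨w, hw, rfl⟩; convert hw using 1; ring
    rw [this]
    exact (isometry_add_left (-m)).lipschitz.isBounded_image bB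
  have bt : Bornology.IsBounded t := by
    have : t = (fun z => -m + z) '' B' := by
      ext z
      simp only [t, mem_preimage, τa, mem_image]
      constructor
      · intro hz; exact ⟨m + z, hz, by ring⟩
      · rintro ⟨w, hw, rfl⟩; convert hw using 1; ring
    rw [this]
    exact (isometry_add_left (-m)).lipschitz.isBounded_image bB'
  have vs := NormedSpace.isVonNBounded_of_isBounded ℝ bs
  have vt := NormedSpace.isVonNBounded_of_isBounded ℝ bt
  let G : ℂ ≃ₜ ℂ := gaugeRescaleHomeomorph s t cs s0 vs ct t0 vt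
  have Gs : G '' s = t := by
    have := image_gaugeRescaleHomeomorph_closure cs s0 vs ct t0 vt
    rwa [(hB.preimage τ.continuous).closure_eq, (hB'.preimage τ.continuous).closure_eq] at this
  let h : ℂ ≃ₜ ℂ := (τ.symm.trans G).trans τ
  have ha : ∀ z, h z = τ (G (τ.symm z)) := fun z => rfl
  refine glue hA hB hB' h ?_ ?_ hint
  · ext z
    constructor
    · rintro ⟨w, hw, rfl⟩
      have : τ.symm w ∈ s := by simpa [s] using hw
      have h2 : G (τ.symm w) ∈ t := Gs ▸ mem_image_of_mem G this
      exact h2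
    · intro hz
      have h1 : τ.symm z ∈ t := by simpa [t] using hz
      rw [← Gs] at h1
      obtain ⟨w, hw, hwz⟩ := h1
      refine ⟨τ w, hw, ?_⟩
      rw [ha, τ.symm_apply_apply, hwz, τ.apply_symm_apply]
  · intro z hz
    have hz2 := hfr hz
    have h1 : τ.symm z ∈ frontier s := by
      have := τ.preimage_frontier B
      show τ.symm z ∈ frontier (τ ⁻¹' B)
      rw [← this]; simpa using hz2.1
    have h2 : τ.symm z ∈ frontier t := by
      have := τ.preimage_frontier B'
      show τ.symm z ∈ frontier (τ ⁻¹' B')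
      rw [← this]; simpa using hz2.2
    rw [← gauge_eq_one_iff_mem_frontier cs s0] at h1
    rw [← gauge_eq_one_iff_mem_frontier ct t0] at h2
    have h3 : G (τ.symm z) = τ.symm z := by
      show gaugeRescale s t (τ.symm z) = τ.symm z
      rw [gaugeRescale_def, h1, h2]; simp
    rw [ha, h3, τ.apply_symm_apply]

end Pool.Agent.Omino
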