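import Pool.Agent.Omino.Defs
import Pool.Agent.Omino.Glue

set_option autoImplicit false

namespace Pool.Agent.Omino

open Set Topology

/-- closed rectangle -/
def rect (a b c d : ℝ) : Set ℂ := {z : ℂ | a ≤ z.re ∧ z.re ≤ b ∧ c ≤ z.im ∧ z.im ≤ d}

theorem rect_eq (a b c d : ℝ) : rect a b c d = Icc a b ×ℂ Icc c d := by
  ext z; simp [rect, Complex.mem_reProdIm, and_assoc]

theorem isClosed_rect (a b c d : ℝ) : IsClosed (rect a b c d) := by
  rw [rect_eq]; exact isClosed_Icc.reProdIm isClosed_Icc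

theorem interior_rect (a b c d : ℝ) :
    interior (rect a b c d) = {z : ℂ | a < z.re ∧ z.re < b ∧ c < z.im ∧ z.im < d} := by
  rw [rect_eq, Complex.interior_reProdIm, interior_Icc, interior_Icc]
  ext z; simp [Complex.mem_reProdIm, and_assoc]

theorem convex_rect (a b c d : ℝ) : Convex ℝ (rect a b c d) := by
  rw [rect_eq]
  exact ((convex_Icc a b).linear_preimage Complex.reLm).inter ((convex_Icc c d).linear_preimage Complex.imLm)

theorem isBounded_rect (a b c d : ℝ) : Bornology.IsBounded (rect a b c d) := by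
  rw [rect_eq]
  exact (Metric.isBounded_Icc a b).reProdIm (Metric.isBounded_Icc c d)

theorem cell_eq (c : ℤ × ℤ) : cell c = rect c.1 (c.1 + 1) c.2 (c.2 + 1) := rfl

theorem isClosed_cell (c : ℤ × ℤ) : IsClosed (cell c) := isClosed_rect _ _ _ _

theorem isClosed_region (S : Finset (ℤ × ℤ)) : IsClosed (region S) := by
  unfold region
  exact isClosed_biUnion_finset (fun c _ => isClosed_cell c)

theorem mem_region {S : Finset (ℤ × ℤ)} {z : ℂ} : z ∈ region S ↔ ∃ c ∈ S, z ∈ cell c := by
  simp [region]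

theorem region_insert (c : ℤ × ℤ) (S : Finset (ℤ × ℤ)) :
    region (insert c S) = region S ∪ cell c := by
  ext z; simp [mem_region, or_comm]

/-- the three cells beyond and two beside `c` when coming from `c - d`. -/
def okAttach (S : Finset (ℤ × ℤ)) (c d : ℤ × ℤ) : Bool :=
  decide (c ∉ S) && decide (c - d ∈ S) && decide (c + d ∉ S) &&
  decide (c + d + (d.2, d.1) ∉ S) && decide (c + d - (d.2, d.1) ∉ S) &&
  decide (c + (d.2, d.1) ∉ S) && decide (c - (d.2, d.1) ∉ S)

theorem attach_core {A : Set ℂ} (hA : IsClosed A) (x0 x1 y0 y1 u0 u1 v0 v1 : ℝ)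
    (h1 : x0 ≤ u0) (h2 : u1 ≤ x1) (h3 : y0 ≤ v0) (h4 : v1 ≤ y1) (h5 : u0 < u1) (h6 : v0 < v1)
    (main : ∀ z ∈ A, z ∈ rect x0 x1 y0 y1 → z ∈ rect u0 u1 v0 v1 ∧
      (z.re = x0 ∨ z.re = x1 ∨ z.im = y0 ∨ z.im = y1)) :
    Nonempty (↥(A ∪ rect x0 x1 y0 y1) ≃ₜ ↥(A ∪ rect u0 u1 v0 v1)) := by
  refine glue_convex hA (isClosed_rect _ _ _ _) (isClosed_rect _ _ _ _) (convex_rect _ _ _ _)
      (convex_rect _ _ _ _) (isBounded_rect _ _ _ _) (isBounded_rect _ _ _ _)
      (⟨(u0 + u1) / 2, (v0 + v1) / 2⟩ : ℂ) ?_ ?_ ?_ ?_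
  · rw [interior_rect]; simp only [mem_ofPred_eq]; refine ⟨?_, ?_, ?_, ?_⟩ <;> linarith
  · rw [interior_rect]; simp only [mem_ofPred_eq]; refine ⟨?_, ?_, ?_, ?_⟩ <;> linarith
  · ext z
    constructor
    · rintro ⟨hz1, hz2⟩
      exact ⟨hz1, (main z hz1 hz2).1⟩
    · rintro ⟨hz1, hz2⟩
      refine ⟨hz1, ?_⟩
      simp only [rect, mem_ofPred_eq] at hz2 ⊢
      refine ⟨?_, ?_, ?_, ?_⟩ <;> linarith [hz2.1, hz2.2.1, hz2.2.2.1, hz2.2.2.2]
  · rintro z ⟨hz1, hz2⟩
    obtain ⟨m1, m2⟩ := main z hz1 hz2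
    rw [(isClosed_rect _ _ _ _).frontier_eq, (isClosed_rect _ _ _ _).frontier_eq, interior_rect,
      interior_rect]
    refine ⟨⟨hz2, ?_⟩, ⟨m1, ?_⟩⟩
    · rintro ⟨q1, q2, q3, q4⟩; rcases m2 with m | m | m | m <;> linarith
    · rintro ⟨q1, q2, q3, q4⟩; rcases m2 with m | m | m | m <;> linarith

theorem attach {S : Finset (ℤ × ℤ)} {c d : ℤ × ℤ} (hd : d = (1,0) ∨ d = (-1,0) ∨ d = (0,1) ∨ d = (0,-1))
    (h : okAttach S c d = true) :
    Nonempty (↥(region (insert c S)) ≃ₜ ↥(region S)) := by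
  classical
  simp only [okAttach, Bool.and_eq_true, decide_eq_true_eq] at h
  obtain ⟨⟨⟨⟨⟨⟨h0, h1⟩, h2⟩, h3⟩, h4⟩, h5⟩, h6⟩ := h
  set A : Set ℂ := region (S.erase (c - d)) with hAdef
  have hS : region S = A ∪ cell (c - d) := by
    rw [hAdef, ← region_insert, Finset.insert_erase h1]
  have hcS : region (insert c S) = A ∪ (cell (c - d) ∪ cell c) := by
    rw [region_insert, hS, union_assoc]
  obtain ⟨a, b⟩ := c
  have key : ∀ s : ℤ × ℤ, s ∈ S.erase ((a, b) - d) → s ≠ (a,b) ∧ s ≠ (a,b) - d ∧ s ≠ (a,b) + d ∧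
      s ≠ (a,b) + d + (d.2, d.1) ∧ s ≠ (a,b) + d - (d.2, d.1) ∧ s ≠ (a,b) + (d.2, d.1) ∧
      s ≠ (a,b) - (d.2, d.1) := by
    intro s hs
    have hs1 := Finset.mem_erase.1 hs
    refine ⟨?_, hs1.1, ?_, ?_, ?_, ?_, ?_⟩ <;> rintro rfl
    · exact h0 hs1.2
    · exact h2 hs1.2
    · exact h3 hs1.2
    · exact h4 hs1.2
    · exact h5 hs1.2
    · exact h6 hs1.2
  rw [hcS, hS]
  have hA : IsClosed A := isClosed_region _
  clear_value A
  rcases hd with rfl | rfl | rfl | rfl
  · have hB : cell ((a,b) - (1,0)) ∪ cell (a,b) = rect ((a:ℝ)-1) ((a:ℝ)+1) ((b:ℝ)) ((b:ℝ)+1) := by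
      ext z
      simp only [cell, rect, mem_union, mem_ofPred_eq, Prod.mk_sub_mk]
      push_cast
      constructor
      · rintro (h | h) <;> refine ⟨?_, ?_, ?_, ?_⟩ <;> linarith [h.1, h.2.1, h.2.2.1, h.2.2.2]
      · rintro ⟨h1, h2, h3, h4⟩
        rcases le_total z.re ((a:ℝ)) with h | h
        · left; refine ⟨?_, ?_, ?_, ?_⟩ <;> linarith
        · right; refine ⟨?_, ?_, ?_, ?_⟩ <;> linarith
    have hB' : cell ((a,b) - (1,0)) = rect ((a:ℝ)-1) ((a:ℝ)) ((b:ℝ)) ((b:ℝ)+1) := by
      ext z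
      simp only [cell, rect, mem_ofPred_eq, Prod.mk_sub_mk]
      push_cast
      constructor
      · rintro ⟨h1, h2, h3, h4⟩; refine ⟨?_, ?_, ?_, ?_⟩ <;> linarith
      · rintro ⟨h1, h2, h3, h4⟩; refine ⟨?_, ?_, ?_, ?_⟩ <;> linarith
    rw [hB, hB']
    refine attach_core hA _ _ _ _ _ _ _ _ (by linarith) (by linarith) (by linarith) (by linarith)
      (by linarith) (by linarith) ?_
    intro z hz hzB
    rw [hAdef, mem_region] at hz
    obtain ⟨s, hs, hzs⟩ := hz
    obtain ⟨k1, k2, k3, k4, k5, k6, k7⟩ := key s hs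
    obtain ⟨x, y⟩ := s
    simp only [ne_eq, Prod.mk_sub_mk, Prod.mk_add_mk, Prod.mk.injEq, not_and] at k1 k2 k3 k4 k5 k6 k7
    simp only [cell, rect, mem_ofPred_eq] at hzs hzB
    obtain ⟨z1, z2, z3, z4⟩ := hzs
    obtain ⟨b1, b2, b3, b4⟩ := hzB
    have i1 : a - 3 ≤ x := by
      have : ((a:ℝ) - 3) ≤ x := by linarith
      exact_mod_cast this
    have i2 : x ≤ a + 3 := by
      have : (x:ℝ) ≤ a + 3 := by linarith
      exact_mod_cast this
    have i3 : b - 3 ≤ y := by
      have : ((b:ℝ) - 3) ≤ y := by linarith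
      exact_mod_cast this
    have i4 : y ≤ b + 3 := by
      have : (y:ℝ) ≤ b + 3 := by linarith
      exact_mod_cast this
    constructor
    · by_contra hcon
      simp only [rect, mem_ofPred_eq, not_and_or, not_le] at hcon
      rcases hcon with hcon | hcon | hcon | hcon
      · linarith
      · have j1 : a - 1 < x := by
          have : ((a:ℝ) - 1) < x := by linarith
          exact_mod_cast this
        have j2 : x ≤ a + 1 := by
          have : (x:ℝ) ≤ a + 1 := by linarith
          exact_mod_cast this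
        have j3 : b - 1 ≤ y := by
          have : ((b:ℝ) - 1) ≤ y := by linarith
          exact_mod_cast this
        have j4 : y ≤ b + 1 := by
          have : (y:ℝ) ≤ b + 1 := by linarith
          exact_mod_cast this
        omega
      · linarith
      · linarith
    · by_contra hcon
      simp only [not_or] at hcon
      obtain ⟨c1, c2, c3, c4⟩ := hcon
      have c1' := lt_of_le_of_ne b1 (Ne.symm c1)
      have c2' := lt_of_le_of_ne b2 c2
      have c3' := lt_of_le_of_ne b3 (Ne.symm c3)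
      have c4' := lt_of_le_of_ne b4 c4
      have j1 : a - 2 < x := by
        have : ((a:ℝ) - 2) < x := by linarith
        exact_mod_cast this
      have j2 : x < a + 1 := by
        have : (x:ℝ) < ((a:ℝ) + 1) := by linarith
        exact_mod_cast this
      have j3 : b - 1 < y := by
        have : ((b:ℝ) - 1) < y := by linarith
        exact_mod_cast this
      have j4 : y < b + 1 := by
        have : (y:ℝ) < ((b:ℝ) + 1) := by linarith
        exact_mod_cast this
      omega
  · have hB : cell ((a,b) - (-1,0)) ∪ cell (a,b) = rect ((a:ℝ)) ((a:ℝ)+2) ((b:ℝ)) ((b:ℝ)+1) := by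
      ext z
      simp only [cell, rect, mem_union, mem_ofPred_eq, Prod.mk_sub_mk]
      push_cast
      constructor
      · rintro (h | h) <;> refine ⟨?_, ?_, ?_, ?_⟩ <;> linarith [h.1, h.2.1, h.2.2.1, h.2.2.2]
      · rintro ⟨h1, h2, h3, h4⟩
        rcases le_total z.re ((a:ℝ)+1) with h | h
        · right; refine ⟨?_, ?_, ?_, ?_⟩ <;> linarith
        · left; refine ⟨?_, ?_, ?_, ?_⟩ <;> linarith
    have hB' : cell ((a,b) - (-1,0)) = rect ((a:ℝ)+1) ((a:ℝ)+2) ((b:ℝ)) ((b:ℝ)+1) := by
      ext z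
      simp only [cell, rect, mem_ofPred_eq, Prod.mk_sub_mk]
      push_cast
      constructor
      · rintro ⟨h1, h2, h3, h4⟩; refine ⟨?_, ?_, ?_, ?_⟩ <;> linarith
      · rintro ⟨h1, h2, h3, h4⟩; refine ⟨?_, ?_, ?_, ?_⟩ <;> linarith
    rw [hB, hB']
    refine attach_core hA _ _ _ _ _ _ _ _ (by linarith) (by linarith) (by linarith) (by linarith)
      (by linarith) (by linarith) ?_
    intro z hz hzB
    rw [hAdef, mem_region] at hz
    obtain ⟨s, hs, hzs⟩ := hz
    obtain ⟨k1, k2, k3, k4, k5, k6, k7⟩ := key s hs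
    obtain ⟨x, y⟩ := s
    simp only [ne_eq, Prod.mk_sub_mk, Prod.mk_add_mk, Prod.mk.injEq, not_and] at k1 k2 k3 k4 k5 k6 k7
    simp only [cell, rect, mem_ofPred_eq] at hzs hzB
    obtain ⟨z1, z2, z3, z4⟩ := hzs
    obtain ⟨b1, b2, b3, b4⟩ := hzB
    have i1 : a - 3 ≤ x := by
      have : ((a:ℝ) - 3) ≤ x := by linarith
      exact_mod_cast this
    have i2 : x ≤ a + 3 := by
      have : (x:ℝ) ≤ a + 3 := by linarith
      exact_mod_cast this
    have i3 : b - 3 ≤ y := by
      have : ((b:ℝ) - 3) ≤ y := by linarith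
      exact_mod_cast this
    have i4 : y ≤ b + 3 := by
      have : (y:ℝ) ≤ b + 3 := by linarith
      exact_mod_cast this
    constructor
    · by_contra hcon
      simp only [rect, mem_ofPred_eq, not_and_or, not_le] at hcon
      rcases hcon with hcon | hcon | hcon | hcon
      · have j1 : x < a + 1 := by
          have : (x:ℝ) < a + 1 := by linarith
          exact_mod_cast this
        have j2 : a - 1 ≤ x := by
          have : (a:ℝ) - 1 ≤ x := by linarith
          exact_mod_cast this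
        have j3 : b - 1 ≤ y := by
          have : ((b:ℝ) - 1) ≤ y := by linarith
          exact_mod_cast this
        have j4 : y ≤ b + 1 := by
          have : (y:ℝ) ≤ b + 1 := by linarith
          exact_mod_cast this
        omega
      · linarith
      · linarith
      · linarith
    · by_contra hcon
      simp only [not_or] at hcon
      obtain ⟨c1, c2, c3, c4⟩ := hcon
      have c1' := lt_of_le_of_ne b1 (Ne.symm c1)
      have c2' := lt_of_le_of_ne b2 c2
      have c3' := lt_of_le_of_ne b3 (Ne.symm c3)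
      have c4' := lt_of_le_of_ne b4 c4
      have j1 : a - 1 < x := by
        have : ((a:ℝ) - 1) < x := by linarith
        exact_mod_cast this
      have j2 : x < a + 2 := by
        have : (x:ℝ) < ((a:ℝ) + 2) := by linarith
        exact_mod_cast this
      have j3 : b - 1 < y := by
        have : ((b:ℝ) - 1) < y := by linarith
        exact_mod_cast this
      have j4 : y < b + 1 := by
        have : (y:ℝ) < ((b:ℝ) + 1) := by linarith
        exact_mod_cast this
      omega
  · have hB : cell ((a,b) - (0,1)) ∪ cell (a,b) = rect ((a:ℝ)) ((a:ℝ)+1) ((b:ℝ)-1) ((b:ℝ)+1) := by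
      ext z
      simp only [cell, rect, mem_union, mem_ofPred_eq, Prod.mk_sub_mk]
      push_cast
      constructor
      · rintro (h | h) <;> refine ⟨?_, ?_, ?_, ?_⟩ <;> linarith [h.1, h.2.1, h.2.2.1, h.2.2.2]
      · rintro ⟨h1, h2, h3, h4⟩
        rcases le_total z.im ((b:ℝ)) with h | h
        · left; refine ⟨?_, ?_, ?_, ?_⟩ <;> linarith
        · right; refine ⟨?_, ?_, ?_, ?_⟩ <;> linarith
    have hB' : cell ((a,b) - (0,1)) = rect ((a:ℝ)) ((a:ℝ)+1) ((b:ℝ)-1) ((b:ℝ)) := by
      ext z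
      simp only [cell, rect, mem_ofPred_eq, Prod.mk_sub_mk]
      push_cast
      constructor
      · rintro ⟨h1, h2, h3, h4⟩; refine ⟨?_, ?_, ?_, ?_⟩ <;> linarith
      · rintro ⟨h1, h2, h3, h4⟩; refine ⟨?_, ?_, ?_, ?_⟩ <;> linarith
    rw [hB, hB']
    refine attach_core hA _ _ _ _ _ _ _ _ (by linarith) (by linarith) (by linarith) (by linarith)
      (by linarith) (by linarith) ?_
    intro z hz hzB
    rw [hAdef, mem_region] at hz
    obtain ⟨s, hs, hzs⟩ := hz
    obtain ⟨k1, k2, k3, k4, k5, k6, k7⟩ := key s hs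
    obtain ⟨x, y⟩ := s
    simp only [ne_eq, Prod.mk_sub_mk, Prod.mk_add_mk, Prod.mk.injEq, not_and] at k1 k2 k3 k4 k5 k6 k7
    simp only [cell, rect, mem_ofPred_eq] at hzs hzB
    obtain ⟨z1, z2, z3, z4⟩ := hzs
    obtain ⟨b1, b2, b3, b4⟩ := hzB
    have i1 : a - 3 ≤ x := by
      have : ((a:ℝ) - 3) ≤ x := by linarith
      exact_mod_cast this
    have i2 : x ≤ a + 3 := by
      have : (x:ℝ) ≤ a + 3 := by linarith
      exact_mod_cast this
    have i3 : b - 3 ≤ y := by
      have : ((b:ℝ) - 3) ≤ y := by linarith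
      exact_mod_cast this
    have i4 : y ≤ b + 3 := by
      have : (y:ℝ) ≤ b + 3 := by linarith
      exact_mod_cast this
    constructor
    · by_contra hcon
      simp only [rect, mem_ofPred_eq, not_and_or, not_le] at hcon
      rcases hcon with hcon | hcon | hcon | hcon
      · linarith
      · linarith
      · linarith
      · have j1 : b - 1 < y := by
          have : ((b:ℝ) - 1) < y := by linarith
          exact_mod_cast this
        have j2 : y ≤ b + 1 := by
          have : (y:ℝ) ≤ b + 1 := by linarith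
          exact_mod_cast this
        have j3 : a - 1 ≤ x := by
          have : ((a:ℝ) - 1) ≤ x := by linarith
          exact_mod_cast this
        have j4 : x ≤ a + 1 := by
          have : (x:ℝ) ≤ a + 1 := by linarith
          exact_mod_cast this
        omega
    · by_contra hcon
      simp only [not_or] at hcon
      obtain ⟨c1, c2, c3, c4⟩ := hcon
      have c1' := lt_of_le_of_ne b1 (Ne.symm c1)
      have c2' := lt_of_le_of_ne b2 c2
      have c3' := lt_of_le_of_ne b3 (Ne.symm c3)
      have c4' := lt_of_le_of_ne b4 c4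
      have j1 : a - 1 < x := by
        have : ((a:ℝ) - 1) < x := by linarith
        exact_mod_cast this
      have j2 : x < a + 1 := by
        have : (x:ℝ) < ((a:ℝ) + 1) := by linarith
        exact_mod_cast this
      have j3 : b - 2 < y := by
        have : ((b:ℝ) - 2) < y := by linarith
        exact_mod_cast this
      have j4 : y < b + 1 := by
        have : (y:ℝ) < ((b:ℝ) + 1) := by linarith
        exact_mod_cast this
      omega
  · have hB : cell ((a,b) - (0,-1)) ∪ cell (a,b) = rect ((a:ℝ)) ((a:ℝ)+1) ((b:ℝ)) ((b:ℝ)+2) := by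
      ext z
      simp only [cell, rect, mem_union, mem_ofPred_eq, Prod.mk_sub_mk]
      push_cast
      constructor
      · rintro (h | h) <;> refine ⟨?_, ?_, ?_, ?_⟩ <;> linarith [h.1, h.2.1, h.2.2.1, h.2.2.2]
      · rintro ⟨h1, h2, h3, h4⟩
        rcases le_total z.im ((b:ℝ)+1) with h | h
        · right; refine ⟨?_, ?_, ?_, ?_⟩ <;> linarith
        · left; refine ⟨?_, ?_, ?_, ?_⟩ <;> linarith
    have hB' : cell ((a,b) - (0,-1)) = rect ((a:ℝ)) ((a:ℝ)+1) ((b:ℝ)+1) ((b:ℝ)+2) := by
      ext z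
      simp only [cell, rect, mem_ofPred_eq, Prod.mk_sub_mk]
      push_cast
      constructor
      · rintro ⟨h1, h2, h3, h4⟩; refine ⟨?_, ?_, ?_, ?_⟩ <;> linarith
      · rintro ⟨h1, h2, h3, h4⟩; refine ⟨?_, ?_, ?_, ?_⟩ <;> linarith
    rw [hB, hB']
    refine attach_core hA _ _ _ _ _ _ _ _ (by linarith) (by linarith) (by linarith) (by linarith)
      (by linarith) (by linarith) ?_
    intro z hz hzB
    rw [hAdef, mem_region] at hz
    obtain ⟨s, hs, hzs⟩ := hz
    obtain ⟨k1, k2, k3, k4, k5, k6, k7⟩ := key s hs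
    obtain ⟨x, y⟩ := s
    simp only [ne_eq, Prod.mk_sub_mk, Prod.mk_add_mk, Prod.mk.injEq, not_and] at k1 k2 k3 k4 k5 k6 k7
    simp only [cell, rect, mem_ofPred_eq] at hzs hzB
    obtain ⟨z1, z2, z3, z4⟩ := hzs
    obtain ⟨b1, b2, b3, b4⟩ := hzB
    have i1 : a - 3 ≤ x := by
      have : ((a:ℝ) - 3) ≤ x := by linarith
      exact_mod_cast this
    have i2 : x ≤ a + 3 := by
      have : (x:ℝ) ≤ a + 3 := by linarith
      exact_mod_cast this
    have i3 : b - 3 ≤ y := by
      have : ((b:ℝ) - 3) ≤ y := by linarith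
      exact_mod_cast this
    have i4 : y ≤ b + 3 := by
      have : (y:ℝ) ≤ b + 3 := by linarith
      exact_mod_cast this
    constructor
    · by_contra hcon
      simp only [rect, mem_ofPred_eq, not_and_or, not_le] at hcon
      rcases hcon with hcon | hcon | hcon | hcon
      · linarith
      · linarith
      · have j1 : y < b + 1 := by
          have : (y:ℝ) < b + 1 := by linarith
          exact_mod_cast this
        have j2 : b - 1 ≤ y := by
          have : (b:ℝ) - 1 ≤ y := by linarith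
          exact_mod_cast this
        have j3 : a - 1 ≤ x := by
          have : ((a:ℝ) - 1) ≤ x := by linarith
          exact_mod_cast this
        have j4 : x ≤ a + 1 := by
          have : (x:ℝ) ≤ a + 1 := by linarith
          exact_mod_cast this
        omega
      · linarith
    · by_contra hcon
      simp only [not_or] at hcon
      obtain ⟨c1, c2, c3, c4⟩ := hcon
      have c1' := lt_of_le_of_ne b1 (Ne.symm c1)
      have c2' := lt_of_le_of_ne b2 c2
      have c3' := lt_of_le_of_ne b3 (Ne.symm c3)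
      have c4' := lt_of_le_of_ne b4 c4
      have j1 : a - 1 < x := by
        have : ((a:ℝ) - 1) < x := by linarith
        exact_mod_cast this
      have j2 : x < a + 1 := by
        have : (x:ℝ) < ((a:ℝ) + 1) := by linarith
        exact_mod_cast this
      have j3 : b - 1 < y := by
        have : ((b:ℝ) - 1) < y := by linarith
        exact_mod_cast this
      have j4 : y < b + 2 := by
        have : (y:ℝ) < ((b:ℝ) + 2) := by linarith
        exact_mod_cast this
      omega

end Pool.Agent.Omino
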