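import Pool.Agent.Omino.Attach

set_option autoImplicit false

namespace Pool.Agent.Omino

open Set Topology

theorem one_lt_rank_complex : 1 < Module.rank ℝ ℂ := by
  rw [Complex.rank_real_complex]; norm_num

theorem isPreconnected_closedBall_diff {F : Set ℂ} (hF : F.Countable) :
    IsPreconnected (Metric.closedBall (0:ℂ) 1 \ F) := by
  let e : ℂ ≃ₜ ↥(Metric.ball (0:ℂ) 1) := Homeomorph.unitBall
  let f : ℂ → ℂ := fun z => (e z : ℂ)
  have cf : Continuous f := continuous_subtype_val.comp e.continuous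
  have inj : Function.Injective f := Subtype.val_injective.comp e.injective
  have hF' : (f ⁻¹' F).Countable := hF.preimage inj
  have h1 : IsPreconnected ((f ⁻¹' F)ᶜ) :=
    (hF'.isPathConnected_compl_of_one_lt_rank one_lt_rank_complex).isConnected.isPreconnected
  have h2 : IsPreconnected (f '' (f ⁻¹' F)ᶜ) := h1.image f cf.continuousOn
  have h3 : f '' (f ⁻¹' F)ᶜ = Metric.ball (0:ℂ) 1 \ F := by
    ext z
    constructor
    · rintro ⟨w, hw, rfl⟩
      exact ⟨(e w).2, hw⟩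
    · rintro ⟨hz1, hz2⟩
      refine ⟨e.symm ⟨z, hz1⟩, ?_, ?_⟩
      · simp only [mem_compl_iff, mem_preimage, f, e.apply_symm_apply]; exact hz2
      · simp only [f, e.apply_symm_apply]
  rw [h3] at h2
  refine h2.subset_closure (diff_subset_diff_left Metric.ball_subset_closedBall) ?_
  have h4 : Metric.ball (0:ℂ) 1 ⊆ closure (Metric.ball (0:ℂ) 1 ∩ Fᶜ) :=
    (hF.dense_compl ℝ).open_subset_closure_inter Metric.isOpen_ball
  have h5 : closure (Metric.ball (0:ℂ) 1) ⊆ closure (Metric.ball (0:ℂ) 1 ∩ Fᶜ) :=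
    closure_minimal h4 isClosed_closure
  rw [closure_ball (0:ℂ) one_ne_zero] at h5
  intro z hz
  exact h5 hz.1

theorem isPreconnected_disk_diff {P F : Set ℂ} (hP : Nonempty (P ≃ₜ Metric.closedBall (0 : ℂ) 1))
    (hF : F.Countable) : IsPreconnected (P \ F) := by
  obtain ⟨e⟩ := hP
  -- the set of points of the ball which are not mapped to `F`
  let φ : ↥(Metric.closedBall (0:ℂ) 1) → ℂ := fun z => (e.symm z : ℂ)
  have cφ : Continuous φ := continuous_subtype_val.comp e.symm.continuous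
  have inj : Function.Injective φ := Subtype.val_injective.comp e.symm.injective
  let G : Set ℂ := Subtype.val '' (φ ⁻¹' F)
  have hG : G.Countable := (hF.preimage inj).image _
  have h1 := isPreconnected_closedBall_diff hG
  -- as a subset of the subtype
  have h2 : IsPreconnected ((Subtype.val : ↥(Metric.closedBall (0:ℂ) 1) → ℂ) ⁻¹' (Metric.closedBall (0:ℂ) 1 \ G)) := by
    rw [← Topology.IsInducing.subtypeVal.isPreconnected_image]
    rw [Subtype.image_preimage_coe]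
    convert h1 using 1
    ext z; simp
  have h3 : IsPreconnected (φ '' ((Subtype.val : ↥(Metric.closedBall (0:ℂ) 1) → ℂ) ⁻¹' (Metric.closedBall (0:ℂ) 1 \ G))) :=
    h2.image φ cφ.continuousOn
  convert h3 using 1
  ext z
  constructor
  · rintro ⟨hz, hzF⟩
    refine ⟨e ⟨z, hz⟩, ⟨(e ⟨z, hz⟩).2, ?_⟩, ?_⟩
    · rintro ⟨w, hw, hwe⟩
      have : w = e ⟨z, hz⟩ := Subtype.ext hwe
      subst this
      apply hzF
      simpa [φ] using hw
    · simp [φ]
  · rintro ⟨w, ⟨_, hw⟩, rfl⟩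
    refine ⟨(e.symm w).2, fun hF' => hw ⟨w, hF', rfl⟩⟩

/-- two cells sharing an edge -/
def Adj (c c' : ℤ × ℤ) : Prop :=
  c' = (c.1 + 1, c.2) ∨ c' = (c.1 - 1, c.2) ∨ c' = (c.1, c.2 + 1) ∨ c' = (c.1, c.2 - 1)

theorem exists_adj {S : Finset (ℤ × ℤ)} (hS : Nonempty (region S ≃ₜ Metric.closedBall (0 : ℂ) 1))
    (S1 : Finset (ℤ × ℤ)) (h1 : S1 ⊆ S) (hne : S1.Nonempty) (hne2 : S1 ≠ S) :
    ∃ c ∈ S1, ∃ c' ∈ S, c' ∉ S1 ∧ Adj c c' := by
  classical
  by_contra hcon
  push Not at hcon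
  set S2 := S \ S1 with hS2
  have hS2ne : S2.Nonempty := by
    rw [Finset.nonempty_iff_ne_empty]
    intro h
    apply hne2
    exact Finset.Subset.antisymm h1 (Finset.sdiff_eq_empty_iff_subset.1 h)
  set F : Set ℂ := region S1 ∩ region S2 with hF
  have hint : ∀ z ∈ F, ∃ p : ℤ × ℤ, z = ⟨(p.1:ℝ), (p.2:ℝ)⟩ := by
    rintro z ⟨hz1, hz2⟩
    rw [mem_region] at hz1 hz2
    obtain ⟨c, hc, a1, a2, a3, a4⟩ := hz1
    obtain ⟨c', hc', b1, b2, b3, b4⟩ := hz2
    have hc'2 : c' ∈ S ∧ c' ∉ S1 := by simpa [hS2] using hc'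
    have hnadj := hcon c hc c' hc'2.1 hc'2.2
    have hne3 : c ≠ c' := by rintro rfl; exact hc'2.2 hc
    obtain ⟨x, y⟩ := c
    obtain ⟨x', y'⟩ := c'
    simp only [Adj, not_or, Prod.mk.injEq, not_and, ne_eq] at hnadj hne3
    simp only at a1 a2 a3 a4 b1 b2 b3 b4
    have i1 : x ≤ x' + 1 := by
      have : (x:ℝ) ≤ x' + 1 := by linarith
      exact_mod_cast this
    have i2 : x' ≤ x + 1 := by
      have : (x':ℝ) ≤ x + 1 := by linarith
      exact_mod_cast this
    have i3 : y ≤ y' + 1 := by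
      have : (y:ℝ) ≤ y' + 1 := by linarith
      exact_mod_cast this
    have i4 : y' ≤ y + 1 := by
      have : (y':ℝ) ≤ y + 1 := by linarith
      exact_mod_cast this
    have hx : x' = x + 1 ∨ x = x' + 1 := by omega
    have hy : y' = y + 1 ∨ y = y' + 1 := by omega
    have ex : ∃ m : ℤ, z.re = m := by
      rcases hx with h | h
      · refine ⟨x', ?_⟩
        have : (x':ℝ) = x + 1 := by exact_mod_cast h
        linarith
      · refine ⟨x, ?_⟩
        have : (x:ℝ) = x' + 1 := by exact_mod_cast h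
        linarith
    have ey : ∃ m : ℤ, z.im = m := by
      rcases hy with h | h
      · refine ⟨y', ?_⟩
        have : (y':ℝ) = y + 1 := by exact_mod_cast h
        linarith
      · refine ⟨y, ?_⟩
        have : (y:ℝ) = y' + 1 := by exact_mod_cast h
        linarith
    obtain ⟨m, hm⟩ := ex
    obtain ⟨n, hn⟩ := ey
    exact ⟨(m, n), Complex.ext hm hn⟩
  have hFc : F.Countable := by
    refine (countable_range (fun p : ℤ × ℤ => (⟨(p.1:ℝ), (p.2:ℝ)⟩ : ℂ))).mono ?_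
    intro z hz
    obtain ⟨p, hp⟩ := hint z hz
    exact ⟨p, hp.symm⟩
  have hpre := isPreconnected_disk_diff hS hFc
  rw [isPreconnected_closed_iff] at hpre
  have hcen : ∀ c : ℤ × ℤ, (⟨(c.1:ℝ) + 1/2, (c.2:ℝ) + 1/2⟩ : ℂ) ∈ cell c ∧
      (⟨(c.1:ℝ) + 1/2, (c.2:ℝ) + 1/2⟩ : ℂ) ∉ F := by
    intro c
    constructor
    · refine ⟨?_, ?_, ?_, ?_⟩ <;> simp <;> norm_num
    · intro h
      obtain ⟨p, hp⟩ := hint _ h
      have h1 := congrArg Complex.re hp
      simp only at h1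
      have h2 : (2 * c.1 + 1 : ℤ) = 2 * p.1 := by
        have : (2 * (c.1:ℝ) + 1) = 2 * p.1 := by linarith
        exact_mod_cast this
      omega
  obtain ⟨c, hc⟩ := hne
  obtain ⟨c', hc'⟩ := hS2ne
  have hc'S : c' ∈ S := by
    have : c' ∈ S ∧ c' ∉ S1 := by simpa [hS2] using hc'
    exact this.1
  obtain ⟨z, ⟨_, hzF⟩, hz⟩ := hpre (region S1) (region S2) (isClosed_region _) (isClosed_region _)
    (by
      rintro z ⟨hz, _⟩
      rw [mem_region] at hz
      obtain ⟨s, hs, hzs⟩ := hz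
      by_cases hs1 : s ∈ S1
      · left; rw [mem_region]; exact ⟨s, hs1, hzs⟩
      · right; rw [mem_region]; exact ⟨s, by simp [hS2, hs, hs1], hzs⟩)
    ⟨⟨(c.1:ℝ) + 1/2, (c.2:ℝ) + 1/2⟩, ⟨mem_region.2 ⟨c, h1 hc, (hcen c).1⟩, (hcen c).2⟩,
      mem_region.2 ⟨c, hc, (hcen c).1⟩⟩
    ⟨⟨(c'.1:ℝ) + 1/2, (c'.2:ℝ) + 1/2⟩, ⟨mem_region.2 ⟨c', hc'S, (hcen c').1⟩, (hcen c').2⟩,
      mem_region.2 ⟨c', hc', (hcen c').1⟩⟩
  exact hzF hz

end Pool.Agent.Omino
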