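import Mathlib

set_option autoImplicit false

namespace Pool.Agent.Omino

/-- The closed unit square of the regular square tiling of the plane `ℂ` whose lower left
corner is `c.1 + c.2 * i`. -/
def cell (c : ℤ × ℤ) : Set ℂ :=
  {z : ℂ | (c.1 : ℝ) ≤ z.re ∧ z.re ≤ (c.1 : ℝ) + 1 ∧ (c.2 : ℝ) ≤ z.im ∧ z.im ≤ (c.2 : ℝ) + 1}

/-- The union of the unit squares indexed by the finite set `S`. -/
def region (S : Finset (ℤ × ℤ)) : Set ℂ := ⋃ c ∈ S, cell c

/-- An `n`-omino: the union of `n` closed unit squares of the regular square tiling which is a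
topological disk. -/
def IsOmino (n : ℕ) (P : Set ℂ) : Prop :=
  (∃ S : Finset (ℤ × ℤ), S.card = n ∧ P = region S) ∧
    Nonempty (P ≃ₜ Metric.closedBall (0 : ℂ) 1)

/-- Two sets are congruent if some isometry of the plane (reflections allowed) maps one onto the
other. -/
def Congruent (A B : Set ℂ) : Prop := ∃ g : ℂ ≃ᵢ ℂ, g '' A = B

/-- A tiling of the plane: a countable family of closed sets which cover the plane and have
pairwise disjoint interiors. -/
structure IsTiling (𝒯 : Set (Set ℂ)) : Prop where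
  countable : 𝒯.Countable
  closed : ∀ T ∈ 𝒯, IsClosed T
  cover : ⋃₀ 𝒯 = Set.univ
  disjoint : ∀ T ∈ 𝒯, ∀ T' ∈ 𝒯, T ≠ T' → Disjoint (interior T) (interior T')

/-- Every tile is (congruent to) an `n`-omino; tiles may be placed by arbitrary isometries. -/
def ByOminoes (n : ℕ) (𝒯 : Set (Set ℂ)) : Prop :=
  ∀ T ∈ 𝒯, ∃ P, IsOmino n P ∧ Congruent P T

/-- `g` is a symmetry of the tiling: it maps the tiling onto itself. -/
def IsSymmetry (𝒯 : Set (Set ℂ)) (g : ℂ ≃ᵢ ℂ) : Prop := (fun T : Set ℂ => g '' T) '' 𝒯 = 𝒯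

/-- A tiling is equitransitive if any two congruent tiles are equivalent under the symmetry group
of the tiling. -/
def Equitransitive (𝒯 : Set (Set ℂ)) : Prop :=
  ∀ T ∈ 𝒯, ∀ T' ∈ 𝒯, Congruent T T' → ∃ g : ℂ ≃ᵢ ℂ, IsSymmetry 𝒯 g ∧ g '' T = T'

/-- Every shape of `n`-omino occurs at least once in the tiling. -/
def AllShapesOccur (n : ℕ) (𝒯 : Set (Set ℂ)) : Prop :=
  ∀ P, IsOmino n P → ∃ T ∈ 𝒯, Congruent P T

end Pool.Agent.Omino
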