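import Pool.Agent.Omino.Main

set_option autoImplicit false

namespace Pool.Agent.Omino

open Set Topology ComplexConjugate

noncomputable def ceilp (β : ℂ) (c : ℤ × ℤ) : ℤ × ℤ := (⌈px β c⌉, ⌈py β c⌉)

theorem lt_of_ceil_eq {x y : ℝ} (h : ⌈x⌉ = ⌈y⌉) : x < y + 1 := by
  have h1 := Int.le_ceil x
  have h2 := Int.ceil_lt_add_one y
  rw [h] at h1
  linarith

theorem ceilp_inj (β : ℂ) : Function.Injective (ceilp β) := by
  intro c c' h
  simp only [ceilp, Prod.mk.injEq] at h
  exact Prod.ext (px_eq_of (lt_of_ceil_eq h.1) (lt_of_ceil_eq h.1.symm))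
    (py_eq_of (lt_of_ceil_eq h.2) (lt_of_ceil_eq h.2.symm))

theorem Setting.ceilp_mem_K {𝒯 : Set (Set ℂ)} (h : Setting 𝒯) {T : Set ℂ} (hT : T ∈ 𝒯)
    (hne : T ≠ region H) {β : ℂ} {S : Finset (ℤ × ℤ)} (hF : Framed 32 T 1 β S) {c : ℤ × ℤ}
    (hc : c ∈ S) (hb : -4 ≤ px β c ∧ px β c ≤ 4 ∧ 0 ≤ py β c ∧ py β c ≤ 3) : ceilp β c ∈ K := by
  obtain ⟨b1, b2, b3, b4⟩ := hb
  have hf := h.free hT hne hF hc
  rw [mem_K]
  simp only [ceilp]
  refine ⟨⟨?_, ?_, ?_, ?_⟩, ?_⟩
  · exact Int.le_ceil_iff.2 (by push_cast; linarith)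
  · exact Int.ceil_le.2 (by exact_mod_cast b2)
  · have := Int.ceil_mono b3
    simpa using this
  · exact Int.ceil_le.2 (by exact_mod_cast b4)
  · by_cases h0 : ⌈px β c⌉ = 0
    · right
      rw [Int.ceil_eq_iff] at h0
      push_cast at h0
      have hy : py β c = 0 := by
        rcases hf.mid with g | g | g | g <;> linarith [h0.1, h0.2]
      rw [hy]; simp
    · exact Or.inl h0

theorem Setting.count {𝒯 : Set (Set ℂ)} (h : Setting 𝒯) {T T' : Set ℂ} (hT : T ∈ 𝒯)
    (hne : T ≠ region H) (hT' : T' ∈ 𝒯) (hne' : T' ≠ region H) (hTT : T ≠ T')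
    {β β' : ℂ} {S S' : Finset (ℤ × ℤ)} (hF : Framed 32 T 1 β S) (hF' : Framed 32 T' 1 β' S')
    (hb : ∀ c ∈ S, -4 ≤ px β c ∧ px β c ≤ 4 ∧ 0 ≤ py β c ∧ py β c ≤ 3)
    (hb' : ∀ c ∈ S', -4 ≤ px β' c ∧ px β' c ≤ 4 ∧ 0 ≤ py β' c ∧ py β' c ≤ 3) : False := by
  classical
  have h1 : (S.image (ceilp β)).card = 32 := by
    rw [Finset.card_image_of_injective _ (ceilp_inj β), hF.card]
  have h2 : (S'.image (ceilp β')).card = 32 := by
    rw [Finset.card_image_of_injective _ (ceilp_inj β'), hF'.card]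
  have hdis : Disjoint (S.image (ceilp β)) (S'.image (ceilp β')) := by
    rw [Finset.disjoint_left]
    intro p hp hp'
    obtain ⟨c, hc, rfl⟩ := Finset.mem_image.1 hp
    obtain ⟨c', hc', heq⟩ := Finset.mem_image.1 hp'
    simp only [ceilp, Prod.mk.injEq] at heq
    have l1 := lt_of_ceil_eq heq.1
    have l2 := lt_of_ceil_eq heq.1.symm
    have l3 := lt_of_ceil_eq heq.2
    have l4 := lt_of_ceil_eq heq.2.symm
    rcases h.sep hT hT' hTT hF hF' hc hc' with g | g | g | g <;> linarith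
  have h3 : (S.image (ceilp β) ∪ S'.image (ceilp β')).card = 64 := by
    rw [Finset.card_union_of_disjoint hdis, h1, h2]
  have h4 : S.image (ceilp β) ∪ S'.image (ceilp β') ⊆ K := by
    apply Finset.union_subset
    · intro p hp
      obtain ⟨c, hc, rfl⟩ := Finset.mem_image.1 hp
      exact h.ceilp_mem_K hT hne hF hc (hb c hc)
    · intro p hp
      obtain ⟨c, hc, rfl⟩ := Finset.mem_image.1 hp
      exact h.ceilp_mem_K hT' hne' hF' hc (hb' c hc)
  have := Finset.card_le_card h4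
  rw [h3, K_card] at this
  omega

/-- no tile other than `X` (which contains the door cell) has a cell in the left chamber -/
theorem Setting.no_left {𝒯 : Set (Set ℂ)} (h : Setting 𝒯) {X : Set ℂ} (hX : X ∈ 𝒯)
    {βX : ℂ} {SX : Finset (ℤ × ℤ)} (hFX : Framed 32 X 1 βX SX)
    {j : ℤ × ℤ} (hj : j ∈ SX) (hjx : px βX j = 0) (hjy : py βX j = 0)
    {T : Set ℂ} (hT : T ∈ 𝒯) (hne : T ≠ region H) (hTX : T ≠ X) {β : ℂ} {S : Finset (ℤ × ℤ)}
    (hF : Framed 32 T 1 β S)
    (hex : ∃ c ∈ S, -4 ≤ px β c ∧ px β c ≤ -1 ∧ 0 ≤ py β c ∧ py β c ≤ 3) : False := by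
  classical
  have hall : ∀ c ∈ S, -4 ≤ px β c ∧ px β c ≤ -1 ∧ 0 ≤ py β c ∧ py β c ≤ 3 := by
    by_contra hcon
    set S1 := S.filter (fun c => -4 ≤ px β c ∧ px β c ≤ -1 ∧ 0 ≤ py β c ∧ py β c ≤ 3) with hS1
    have hne1 : S1.Nonempty := by
      obtain ⟨c, hc, hc'⟩ := hex
      exact ⟨c, Finset.mem_filter.2 ⟨hc, hc'⟩⟩
    have hne2 : S1 ≠ S := by
      intro heq
      apply hcon
      intro c hc
      rw [← heq] at hc
      exact (Finset.mem_filter.1 hc).2
    obtain ⟨c, hc, c', hc', hc'1, hadj⟩ := exists_adj hF.disk S1 (Finset.filter_subset _ _) hne1 hne2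
    obtain ⟨hcS, b1, b2, b3, b4⟩ := Finset.mem_filter.1 hc
    apply hc'1
    rw [hS1, Finset.mem_filter]
    refine ⟨hc', ?_⟩
    obtain ⟨f1, f2, f3, f4, f5, f6⟩ := h.free hT hne hF hc'
    have hs := h.sep hT hX hTX hF hFX hc' hj
    rw [hjx, hjy] at hs
    rcases hadj with rfl | rfl | rfl | rfl
    · have ex : px β (c.1 + 1, c.2) = px β c + 1 := by simp [px]; ring
      have ey : py β (c.1 + 1, c.2) = py β c := by simp [py]
      rw [ex, ey] at f6 hs ⊢
      refine ⟨by linarith, ?_, by linarith, by linarith⟩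
      by_contra hgt
      push Not at hgt
      have hy : py β c ≤ 0 := by rcases f6 with g | g | g | g <;> linarith
      rcases hs with g | g | g | g <;> linarith
    · have ex : px β (c.1 - 1, c.2) = px β c - 1 := by simp [px]; ring
      have ey : py β (c.1 - 1, c.2) = py β c := by simp [py]
      rw [ex, ey] at f1 ⊢
      refine ⟨?_, by linarith, by linarith, by linarith⟩
      rcases f1 with g | g | g | g <;> linarith
    · have ex : px β (c.1, c.2 + 1) = px β c := by simp [px]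
      have ey : py β (c.1, c.2 + 1) = py β c + 1 := by simp [py]; ring
      rw [ex, ey] at f3 ⊢
      refine ⟨by linarith, by linarith, by linarith, ?_⟩
      rcases f3 with g | g | g | g <;> linarith
    · have ex : px β (c.1, c.2 - 1) = px β c := by simp [px]
      have ey : py β (c.1, c.2 - 1) = py β c - 1 := by simp [py]; ring
      rw [ex, ey] at f4 ⊢
      refine ⟨by linarith, by linarith, ?_, by linarith⟩
      rcases f4 with g | g | g | g <;> linarith
  have h1 : (S.image (ceilp β)).card = 32 := by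
    rw [Finset.card_image_of_injective _ (ceilp_inj β), hF.card]
  have h4 : S.image (ceilp β) ⊆ (Finset.Icc (-4) (-1)) ×ˢ (Finset.Icc 0 3) := by
    intro p hp
    obtain ⟨c, hc, rfl⟩ := Finset.mem_image.1 hp
    obtain ⟨b1, b2, b3, b4⟩ := hall c hc
    simp only [ceilp, Finset.mem_product, Finset.mem_Icc]
    refine ⟨⟨?_, ?_⟩, ⟨?_, ?_⟩⟩
    · exact Int.le_ceil_iff.2 (by push_cast; linarith)
    · exact Int.ceil_le.2 (by push_cast; linarith)
    · have := Int.ceil_mono b3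
      simpa using this
    · exact Int.ceil_le.2 (by push_cast; linarith)
  have := Finset.card_le_card h4
  rw [h1] at this
  simp at this

/-- no tile other than `X` (which contains the door cell) has a cell in the right chamber -/
theorem Setting.no_right {𝒯 : Set (Set ℂ)} (h : Setting 𝒯) {X : Set ℂ} (hX : X ∈ 𝒯)
    {βX : ℂ} {SX : Finset (ℤ × ℤ)} (hFX : Framed 32 X 1 βX SX)
    {j : ℤ × ℤ} (hj : j ∈ SX) (hjx : px βX j = 0) (hjy : py βX j = 0)
    {T : Set ℂ} (hT : T ∈ 𝒯) (hne : T ≠ region H) (hTX : T ≠ X) {β : ℂ} {S : Finset (ℤ × ℤ)}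
    (hF : Framed 32 T 1 β S)
    (hex : ∃ c ∈ S, 1 ≤ px β c ∧ px β c ≤ 4 ∧ 0 ≤ py β c ∧ py β c ≤ 3) : False := by
  classical
  have hall : ∀ c ∈ S, 1 ≤ px β c ∧ px β c ≤ 4 ∧ 0 ≤ py β c ∧ py β c ≤ 3 := by
    by_contra hcon
    set S1 := S.filter (fun c => 1 ≤ px β c ∧ px β c ≤ 4 ∧ 0 ≤ py β c ∧ py β c ≤ 3) with hS1
    have hne1 : S1.Nonempty := by
      obtain ⟨c, hc, hc'⟩ := hex
      exact ⟨c, Finset.mem_filter.2 ⟨hc, hc'⟩⟩
    have hne2 : S1 ≠ S := by
      intro heq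
      apply hcon
      intro c hc
      rw [← heq] at hc
      exact (Finset.mem_filter.1 hc).2
    obtain ⟨c, hc, c', hc', hc'1, hadj⟩ := exists_adj hF.disk S1 (Finset.filter_subset _ _) hne1 hne2
    obtain ⟨hcS, b1, b2, b3, b4⟩ := Finset.mem_filter.1 hc
    apply hc'1
    rw [hS1, Finset.mem_filter]
    refine ⟨hc', ?_⟩
    obtain ⟨f1, f2, f3, f4, f5, f6⟩ := h.free hT hne hF hc'
    have hs := h.sep hT hX hTX hF hFX hc' hj
    rw [hjx, hjy] at hs
    rcases hadj with rfl | rfl | rfl | rfl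
    · have ex : px β (c.1 + 1, c.2) = px β c + 1 := by simp [px]; ring
      have ey : py β (c.1 + 1, c.2) = py β c := by simp [py]
      rw [ex, ey] at f2 ⊢
      refine ⟨by linarith, ?_, by linarith, by linarith⟩
      rcases f2 with g | g | g | g <;> linarith
    · have ex : px β (c.1 - 1, c.2) = px β c - 1 := by simp [px]; ring
      have ey : py β (c.1 - 1, c.2) = py β c := by simp [py]
      rw [ex, ey] at f6 hs ⊢
      refine ⟨?_, by linarith, by linarith, by linarith⟩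
      by_contra hgt
      push Not at hgt
      have hy : py β c ≤ 0 := by rcases f6 with g | g | g | g <;> linarith
      rcases hs with g | g | g | g <;> linarith
    · have ex : px β (c.1, c.2 + 1) = px β c := by simp [px]
      have ey : py β (c.1, c.2 + 1) = py β c + 1 := by simp [py]; ring
      rw [ex, ey] at f3 ⊢
      refine ⟨by linarith, by linarith, by linarith, ?_⟩
      rcases f3 with g | g | g | g <;> linarith
    · have ex : px β (c.1, c.2 - 1) = px β c := by simp [px]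
      have ey : py β (c.1, c.2 - 1) = py β c - 1 := by simp [py]; ring
      rw [ex, ey] at f5 ⊢
      refine ⟨by linarith, by linarith, ?_, by linarith⟩
      rcases f5 with g | g | g | g <;> linarith
  have h1 : (S.image (ceilp β)).card = 32 := by
    rw [Finset.card_image_of_injective _ (ceilp_inj β), hF.card]
  have h4 : S.image (ceilp β) ⊆ (Finset.Icc 1 4) ×ˢ (Finset.Icc 0 3) := by
    intro p hp
    obtain ⟨c, hc, rfl⟩ := Finset.mem_image.1 hp
    obtain ⟨b1, b2, b3, b4⟩ := hall c hc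
    simp only [ceilp, Finset.mem_product, Finset.mem_Icc]
    refine ⟨⟨?_, ?_⟩, ⟨?_, ?_⟩⟩
    · exact Int.le_ceil_iff.2 (by push_cast; linarith)
    · exact Int.ceil_le.2 (by push_cast; linarith)
    · have := Int.ceil_mono b3
      simpa using this
    · exact Int.ceil_le.2 (by push_cast; linarith)
  have := Finset.card_le_card h4
  rw [h1] at this
  simp at this

/-- there is no tiling by `32`-ominoes which contains the special one in standard position -/
theorem Setting.false {𝒯 : Set (Set ℂ)} (h : Setting 𝒯) : False := by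
  by_cases hX : ∃ X ∈ 𝒯, X ≠ region H ∧ ∃ β S, Framed 32 X 1 β S ∧
      (∃ c ∈ S, px β c = 0 ∧ py β c = 0) ∧ (∃ c ∈ S, px β c = 0 ∧ py β c = -1)
  · obtain ⟨X, hXm, hXne, βX, SX, hFX, ⟨j, hj, hjx, hjy⟩, _⟩ := hX
    apply pigeon hFX
    intro k hk
    obtain ⟨T, hT, hne, hkT⟩ := h.cover (smp_not_mem_H hk)
    by_cases hTX : T = X
    · rw [← hTX]; exact hkT
    exfalso
    obtain ⟨β, S, hF⟩ := h.framed hT
    obtain ⟨c, hc, hkc⟩ := (hF.mem_iff _).1 hkT
    obtain ⟨⟨b1, b2, b3, b4⟩, bl, br⟩ := h.smp_box hT hne hF hc hk hkc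
    have hs := h.sep hT hXm hTX hF hFX hc hj
    rw [hjx, hjy] at hs
    have h3 : k.1 ≤ -1 ∨ k.1 = 0 ∨ 1 ≤ k.1 := by omega
    rcases h3 with hk1 | hk1 | hk1
    · rcases bl hk1 with g | ⟨g1, g2, g3⟩
      · exact h.no_left hXm hFX hj hjx hjy hT hne hTX hF ⟨c, hc, b1, g, b3, b4⟩
      · rcases hs with g | g | g | g <;> linarith
    · have hk2 : k.2 = 0 := by
        rw [mem_K] at hk
        rcases hk.2 with g | g
        · exact absurd hk1 g
        · exact g
      obtain ⟨a1, a2, a3, a4⟩ := hkc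
      simp only [smp, hk1, hk2, Int.cast_zero, mul_zero, add_zero] at a1 a2 a3 a4
      rcases hs with g | g | g | g <;> linarith
    · rcases br hk1 with g | ⟨g1, g2, g3⟩
      · exact h.no_right hXm hFX hj hjx hjy hT hne hTX hF ⟨c, hc, g, b2, b3, b4⟩
      · rcases hs with g | g | g | g <;> linarith
  · have h00 : ((0, 0) : ℤ × ℤ) ∈ K := by rw [mem_K]; simp
    obtain ⟨T, hT, hne, hkT⟩ := h.cover (smp_not_mem_H h00)
    obtain ⟨β, S, hF⟩ := h.framed hT
    have hp := pigeon hF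
    push Not at hp
    obtain ⟨k, hk, hkn⟩ := hp
    obtain ⟨T', hT', hne', hkT'⟩ := h.cover (smp_not_mem_H hk)
    obtain ⟨β', S', hF'⟩ := h.framed hT'
    have hTT : T ≠ T' := by rintro rfl; exact hkn hkT'
    obtain ⟨c, hc, hkc⟩ := (hF.mem_iff _).1 hkT
    obtain ⟨c', hc', hkc'⟩ := (hF'.mem_iff _).1 hkT'
    have hbox := h.closure_box hT hne hF (fun hh => hX ⟨T, hT, hne, β, S, hF, hh⟩)
      ⟨c, hc, (h.smp_box hT hne hF hc h00 hkc).1⟩
    have hbox' := h.closure_box hT' hne' hF' (fun hh => hX ⟨T', hT', hne', β', S', hF', hh⟩)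
      ⟨c', hc', (h.smp_box hT' hne' hF' hc' hk hkc').1⟩
    exact h.count hT hne hT' hne' hTT hF hF' hbox hbox'

theorem interior_image (g : ℂ ≃ᵢ ℂ) (T : Set ℂ) : interior (g '' T) = g '' interior T :=
  (g.toHomeomorph.image_interior T).symm

theorem IsTiling.image {𝒯 : Set (Set ℂ)} (h : IsTiling 𝒯) (g : ℂ ≃ᵢ ℂ) :
    IsTiling ((fun T : Set ℂ => g '' T) '' 𝒯) := by
  constructor
  · exact h.countable.image _
  · rintro _ ⟨T, hT, rfl⟩
    exact (g.toHomeomorph.isClosed_image).2 (h.closed T hT)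
  · rw [eq_univ_iff_forall]
    intro z
    have hz : g.symm z ∈ ⋃₀ 𝒯 := by rw [h.cover]; trivial
    obtain ⟨T, hT, hzT⟩ := hz
    exact ⟨g '' T, ⟨T, hT, rfl⟩, ⟨g.symm z, hzT, by simp⟩⟩
  · rintro _ ⟨T, hT, rfl⟩ _ ⟨T', hT', rfl⟩ hne
    have hne' : T ≠ T' := by rintro rfl; exact hne rfl
    simp only [interior_image]
    exact (disjoint_image_iff g.injective).2 (h.disjoint T hT T' hT' hne')

theorem ByOminoes.image {n : ℕ} {𝒯 : Set (Set ℂ)} (h : ByOminoes n 𝒯) (g : ℂ ≃ᵢ ℂ) :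
    ByOminoes n ((fun T : Set ℂ => g '' T) '' 𝒯) := by
  rintro _ ⟨T, hT, rfl⟩
  obtain ⟨P, hP, g', hg'⟩ := h T hT
  refine ⟨P, hP, g'.trans g, ?_⟩
  rw [← hg']
  show _ = g '' (g' '' P)
  rw [image_image]
  rfl

/-- The special `32`-omino occurs in no tiling of the plane by `32`-ominoes. -/
theorem special_not_in_tiling (𝒯 : Set (Set ℂ)) (hT : IsTiling 𝒯) (hO : ByOminoes 32 𝒯)
    (T : Set ℂ) (hTm : T ∈ 𝒯) : ¬ Congruent (region H) T := by
  rintro ⟨g, hg⟩
  have hset : Setting ((fun T : Set ℂ => g.symm '' T) '' 𝒯) := by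
    refine ⟨hT.image _, hO.image _, ⟨T, hTm, ?_⟩⟩
    simp only [← hg, image_image]
    simp
  exact hset.false

end Pool.Agent.Omino
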