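import Pool.Agent.Omino.Conn

set_option autoImplicit false

namespace Pool.Agent.Omino

open Set Topology ComplexConjugate

/-- every isometry of the plane is a rotation or a conjugation followed by a rotation, followed by
a translation -/
theorem isometry_form (g : ℂ ≃ᵢ ℂ) : ∃ α β : ℂ, ‖α‖ = 1 ∧
    ((∀ z, g z = α * z + β) ∨ (∀ z, g z = α * conj z + β)) := by
  let A := g.toRealAffineIsometryEquiv
  let L := A.linearIsometryEquiv
  have hg : ∀ z, g z = L z + g 0 := by
    intro z
    have h1 : A (z +ᵥ (0:ℂ)) = A.linearIsometryEquiv z +ᵥ A 0 := A.map_vadd 0 z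
    have h2 : ∀ w, A w = g w := fun w => by simp [A]
    rw [h2, h2] at h1
    simpa [vadd_eq_add] using h1
  obtain ⟨a, ha⟩ := linear_isometry_complex L
  refine ⟨(a : ℂ), g 0, Circle.norm_coe a, ?_⟩
  rcases ha with ha | ha
  · left
    intro z
    rw [hg z, ha, rotation_apply]
  · right
    intro z
    rw [hg z, ha]
    simp [rotation_apply]

/-- The frame map -/
def fr (α β : ℂ) (w : ℂ) : ℂ := conj α * (w - β)

/-- `T` is the region `S` placed by the rotation and translation given by `α`, `β`. -/
structure Framed (n : ℕ) (T : Set ℂ) (α β : ℂ) (S : Finset (ℤ × ℤ)) : Prop where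
  norm : ‖α‖ = 1
  card : S.card = n
  eq : T = (fr α β) ⁻¹' (region S)
  disk : Nonempty (region S ≃ₜ Metric.closedBall (0 : ℂ) 1)

theorem conj_mul_self_of_norm {α : ℂ} (h : ‖α‖ = 1) : conj α * α = 1 := by
  rw [mul_comm, Complex.mul_conj, Complex.normSq_eq_norm_sq, h]; simp

theorem fr_apply {α : ℂ} (h : ‖α‖ = 1) (β z : ℂ) : fr α β (α * z + β) = z := by
  unfold fr
  rw [add_sub_cancel_right, ← mul_assoc, conj_mul_self_of_norm h, one_mul]

theorem fr_apply' {α : ℂ} (h : ‖α‖ = 1) (β w : ℂ) : α * fr α β w + β = w := by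
  unfold fr
  rw [← mul_assoc, mul_comm α, conj_mul_self_of_norm h, one_mul, sub_add_cancel]

theorem region_image_homeo (e : ℂ ≃ₜ ℂ) (S S' : Finset (ℤ × ℤ)) (h : e '' region S = region S')
    (hd : Nonempty (region S ≃ₜ Metric.closedBall (0 : ℂ) 1)) :
    Nonempty (region S' ≃ₜ Metric.closedBall (0 : ℂ) 1) := by
  obtain ⟨d⟩ := hd
  exact ⟨((Homeomorph.setCongr h).symm.trans (e.image (region S)).symm).trans d⟩

/-- reflection of cells -/
def refl (c : ℤ × ℤ) : ℤ × ℤ := (c.1, -c.2 - 1)

/-- rotation of cells by 90 degrees -/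
def rot (c : ℤ × ℤ) : ℤ × ℤ := (-c.2 - 1, c.1)

theorem refl_inj : Function.Injective refl := by
  rintro ⟨a, b⟩ ⟨c, d⟩ h
  simp only [refl, Prod.mk.injEq] at h
  ext <;> simp <;> omega

theorem rot_inj : Function.Injective rot := by
  rintro ⟨a, b⟩ ⟨c, d⟩ h
  simp only [rot, Prod.mk.injEq] at h
  ext <;> simp <;> omega

theorem mem_cell_refl (c : ℤ × ℤ) (z : ℂ) : conj z ∈ cell (refl c) ↔ z ∈ cell c := by
  simp only [cell, refl, mem_ofPred_eq, Complex.conj_re, Complex.conj_im]
  push_cast
  constructor <;> rintro ⟨h1, h2, h3, h4⟩ <;> refine ⟨?_, ?_, ?_, ?_⟩ <;> linarith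

theorem mem_cell_rot (c : ℤ × ℤ) (z : ℂ) : Complex.I * z ∈ cell (rot c) ↔ z ∈ cell c := by
  simp only [cell, rot, mem_ofPred_eq, Complex.I_mul_re, Complex.I_mul_im]
  push_cast
  constructor <;> rintro ⟨h1, h2, h3, h4⟩ <;> refine ⟨?_, ?_, ?_, ?_⟩ <;> linarith

theorem mem_region_refl (S : Finset (ℤ × ℤ)) (z : ℂ) :
    conj z ∈ region (S.image refl) ↔ z ∈ region S := by
  simp only [mem_region, Finset.mem_image, exists_exists_and_eq_and, mem_cell_refl]

theorem mem_region_rot (S : Finset (ℤ × ℤ)) (z : ℂ) :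
    Complex.I * z ∈ region (S.image rot) ↔ z ∈ region S := by
  simp only [mem_region, Finset.mem_image, exists_exists_and_eq_and, mem_cell_rot]

theorem exists_framed {n : ℕ} {T : Set ℂ} (h : ∃ P, IsOmino n P ∧ Congruent P T) :
    ∃ α β S, Framed n T α β S := by
  obtain ⟨P, ⟨⟨S, hS, rfl⟩, hd⟩, g, rfl⟩ := h
  obtain ⟨α, β, hα, hg | hg⟩ := isometry_form g
  · refine ⟨α, β, S, hα, hS, ?_, hd⟩
    ext w
    constructor
    · rintro ⟨z, hz, rfl⟩
      rw [mem_preimage, hg, fr_apply hα]; exact hz
    · intro hw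
      refine ⟨fr α β w, hw, ?_⟩
      rw [hg, fr_apply' hα]
  · refine ⟨α, β, S.image refl, hα, ?_, ?_, ?_⟩
    · rw [Finset.card_image_of_injective _ refl_inj, hS]
    · ext w
      constructor
      · rintro ⟨z, hz, rfl⟩
        rw [mem_preimage, hg, fr_apply hα, mem_region_refl]; exact hz
      · intro hw
        rw [mem_preimage] at hw
        refine ⟨conj (fr α β w), ?_, ?_⟩
        · rw [← mem_region_refl, Complex.conj_conj]; exact hw
        · rw [hg, Complex.conj_conj, fr_apply' hα]
    · refine region_image_homeo Complex.conjCLE.toHomeomorph S _ ?_ hd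
      ext w
      constructor
      · rintro ⟨z, hz, rfl⟩
        exact (mem_region_refl S z).2 hz
      · intro hw
        refine ⟨conj w, ?_, by simp⟩
        rw [← mem_region_refl, Complex.conj_conj]; exact hw

/-- rotating the frame by 90 degrees -/
theorem Framed.rotate {n : ℕ} {T : Set ℂ} {α β : ℂ} {S : Finset (ℤ × ℤ)} (h : Framed n T α β S) :
    Framed n T (-Complex.I * α) β (S.image rot) := by
  refine ⟨?_, ?_, ?_, ?_⟩
  · rw [norm_mul, h.norm]; simp
  · rw [Finset.card_image_of_injective _ rot_inj, h.card]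
  · rw [h.eq]
    ext w
    simp only [mem_preimage]
    rw [← mem_region_rot]
    have : Complex.I * fr α β w = fr (-Complex.I * α) β w := by
      unfold fr
      simp only [map_mul, map_neg, Complex.conj_I, neg_neg]
      ring
    rw [this]
  · refine region_image_homeo (Homeomorph.mulLeft₀ Complex.I Complex.I_ne_zero) S _ ?_ h.disk
    ext w
    constructor
    · rintro ⟨z, hz, rfl⟩
      exact (mem_region_rot S z).2 hz
    · intro hw
      refine ⟨-Complex.I * w, ?_, ?_⟩
      · rw [← mem_region_rot]; rw [← mul_assoc]; simpa using hw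
      · simp [← mul_assoc]

/-- an aligned tile has a frame with `α = 1` -/
theorem Framed.aligned {n : ℕ} {T : Set ℂ} {α β : ℂ} {S : Finset (ℤ × ℤ)} (h : Framed n T α β S)
    (ha : α.re = 0 ∨ α.im = 0) : ∃ S', Framed n T 1 β S' := by
  have hn : α.re * α.re + α.im * α.im = 1 := by
    have := Complex.normSq_eq_norm_sq α
    rw [h.norm, Complex.normSq_apply] at this
    linarith
  have h4 : α = 1 ∨ α = Complex.I ∨ α = -1 ∨ α = -Complex.I := by
    rcases ha with ha | ha
    · have h2 : (α.im - 1) * (α.im + 1) = 0 := by rw [ha] at hn; linarith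
      rcases mul_eq_zero.1 h2 with h3 | h3
      · right; left; apply Complex.ext <;> simp <;> linarith
      · right; right; right; apply Complex.ext <;> simp <;> linarith
    · have h2 : (α.re - 1) * (α.re + 1) = 0 := by rw [ha] at hn; linarith
      rcases mul_eq_zero.1 h2 with h3 | h3
      · left; apply Complex.ext <;> simp <;> linarith
      · right; right; left; apply Complex.ext <;> simp <;> linarith
  rcases h4 with rfl | rfl | rfl | rfl
  · exact ⟨_, h⟩
  · refine ⟨S.image rot, ?_⟩
    have := h.rotate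
    convert this using 1
    simp
  · refine ⟨(S.image rot).image rot, ?_⟩
    have := h.rotate.rotate
    convert this using 1
    simp [← mul_assoc]
  · refine ⟨((S.image rot).image rot).image rot, ?_⟩
    have := h.rotate.rotate.rotate
    convert this using 1
    simp [← mul_assoc]

end Pool.Agent.Omino
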