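import Pool.Agent.Omino.Attach

set_option autoImplicit false

namespace Pool.Agent.Omino

open Set Topology

/-- successively add cells -/
def build : Finset (ℤ × ℤ) → List ((ℤ × ℤ) × (ℤ × ℤ)) → Finset (ℤ × ℤ)
  | S, [] => S
  | S, p :: L => build (insert p.1 S) L

/-- each step of `build` attaches a cell along exactly one edge -/
def okAll : Finset (ℤ × ℤ) → List ((ℤ × ℤ) × (ℤ × ℤ)) → Bool
  | _, [] => true
  | S, p :: L => decide (p.2 = (1,0) ∨ p.2 = (-1,0) ∨ p.2 = (0,1) ∨ p.2 = (0,-1)) &&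
      okAttach S p.1 p.2 && okAll (insert p.1 S) L

theorem build_homeo (L : List ((ℤ × ℤ) × (ℤ × ℤ))) : ∀ (S : Finset (ℤ × ℤ)), okAll S L = true →
    Nonempty (↥(region (build S L)) ≃ₜ ↥(region S)) := by
  induction L with
  | nil => intro S _; exact ⟨Homeomorph.refl _⟩
  | cons p L ih =>
    intro S h
    simp only [okAll, Bool.and_eq_true, decide_eq_true_eq] at h
    obtain ⟨⟨h1, h2⟩, h3⟩ := h
    obtain ⟨e1⟩ := attach h1 h2
    obtain ⟨e2⟩ := ih _ h3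
    exact ⟨e2.trans e1⟩

theorem cell_homeo (c : ℤ × ℤ) : Nonempty (↥(cell c) ≃ₜ ↥(Metric.closedBall (0:ℂ) 1)) := by
  have hne : (interior (cell c)).Nonempty := by
    rw [cell_eq, interior_rect]
    refine ⟨⟨c.1 + 1/2, c.2 + 1/2⟩, ?_⟩
    simp only [mem_ofPred_eq]
    refine ⟨?_, ?_, ?_, ?_⟩ <;> linarith
  obtain ⟨h, _, h2, _⟩ := exists_homeomorph_image_interior_closure_frontier_eq_unitBall
    (convex_rect _ _ _ _ : Convex ℝ (cell c)) hne (isBounded_rect _ _ _ _)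
  rw [(isClosed_rect _ _ _ _).closure_eq] at h2
  exact ⟨(h.image (cell c)).trans (Homeomorph.setCongr h2)⟩

/-- The order in which the cells of the special `32`-omino are attached. -/
def path : List ((ℤ × ℤ) × (ℤ × ℤ)) :=
  [((2,-1),(1,0)), ((3,-1),(1,0)), ((4,-1),(1,0)), ((5,-1),(1,0)),
   ((5,0),(0,1)), ((5,1),(0,1)), ((5,2),(0,1)), ((5,3),(0,1)), ((5,4),(0,1)),
   ((4,4),(-1,0)), ((3,4),(-1,0)), ((2,4),(-1,0)), ((1,4),(-1,0)), ((0,4),(-1,0)),
   ((-1,4),(-1,0)), ((-2,4),(-1,0)), ((-3,4),(-1,0)), ((-4,4),(-1,0)), ((-5,4),(-1,0)),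
   ((-5,3),(0,-1)), ((-5,2),(0,-1)), ((-5,1),(0,-1)), ((-5,0),(0,-1)), ((-5,-1),(0,-1)),
   ((-4,-1),(1,0)), ((-3,-1),(1,0)), ((-2,-1),(1,0)), ((-1,-1),(1,0)),
   ((0,3),(0,-1)), ((0,2),(0,-1)), ((0,1),(0,-1))]

/-- The special `32`-omino: the frame of a `9 × 4` box with the bottom cell `(0,-1)` removed,
together with the wall `(0,1),(0,2),(0,3)` inside the box. -/
def H : Finset (ℤ × ℤ) := build {(1,-1)} path

theorem H_card : H.card = 32 := by decide +kernel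

theorem path_ok : okAll {(1,-1)} path = true := by decide +kernel

theorem region_singleton (c : ℤ × ℤ) : region {c} = cell c := by
  ext z; simp [mem_region]

theorem isOmino_H : IsOmino 32 (region H) := by
  refine ⟨⟨H, H_card, rfl⟩, ?_⟩
  obtain ⟨e1⟩ := build_homeo path {(1,-1)} path_ok
  obtain ⟨e2⟩ := cell_homeo (1,-1)
  exact ⟨(e1.trans (Homeomorph.setCongr (region_singleton _))).trans e2⟩

theorem exists_int_cell (m n : ℤ) (t : ℝ) (hmn : m ≤ n) (h1 : (m:ℝ) ≤ t) (h2 : t ≤ (n:ℝ) + 1) :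
    ∃ k : ℤ, m ≤ k ∧ k ≤ n ∧ (k:ℝ) ≤ t ∧ t ≤ (k:ℝ) + 1 := by
  rcases le_total t (n:ℝ) with h | h
  · rcases eq_or_lt_of_le h with h' | h'
    · exact ⟨n, hmn, le_rfl, h'.ge, h2⟩
    · refine ⟨⌊t⌋, Int.le_floor.2 h1, ?_, Int.floor_le t, (Int.lt_floor_add_one t).le⟩
      have : ⌊t⌋ < n := Int.floor_lt.2 h'
      exact this.le
  · exact ⟨n, hmn, le_rfl, h, h2⟩

theorem wall_left : rect (-5) (-4) (-1) 5 ⊆ region H := by
  rintro z ⟨h1, h2, h3, h4⟩
  obtain ⟨k, k1, k2, k3, k4⟩ := exists_int_cell (-1) 4 z.im (by norm_num) (by push_cast; linarith) (by push_cast; linarith)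
  rw [mem_region]
  refine ⟨(-5, k), ?_, ?_⟩
  · interval_cases k <;> decide +kernel
  · refine ⟨?_, ?_, ?_, ?_⟩ <;> push_cast <;> linarith

theorem wall_right : rect 5 6 (-1) 5 ⊆ region H := by
  rintro z ⟨h1, h2, h3, h4⟩
  obtain ⟨k, k1, k2, k3, k4⟩ := exists_int_cell (-1) 4 z.im (by norm_num) (by push_cast; linarith) (by push_cast; linarith)
  rw [mem_region]
  refine ⟨(5, k), ?_, ?_⟩
  · interval_cases k <;> decide +kernel
  · refine ⟨?_, ?_, ?_, ?_⟩ <;> push_cast <;> linarith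

theorem wall_top : rect (-5) 6 4 5 ⊆ region H := by
  rintro z ⟨h1, h2, h3, h4⟩
  obtain ⟨k, k1, k2, k3, k4⟩ := exists_int_cell (-5) 5 z.re (by norm_num) (by push_cast; linarith) (by push_cast; linarith)
  rw [mem_region]
  refine ⟨(k, 4), ?_, ?_⟩
  · interval_cases k <;> decide +kernel
  · refine ⟨?_, ?_, ?_, ?_⟩ <;> push_cast <;> linarith

theorem wall_botl : rect (-5) 0 (-1) 0 ⊆ region H := by
  rintro z ⟨h1, h2, h3, h4⟩
  obtain ⟨k, k1, k2, k3, k4⟩ := exists_int_cell (-5) (-1) z.re (by norm_num) (by push_cast; linarith) (by push_cast; linarith)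
  rw [mem_region]
  refine ⟨(k, -1), ?_, ?_⟩
  · interval_cases k <;> decide +kernel
  · refine ⟨?_, ?_, ?_, ?_⟩ <;> push_cast <;> linarith

theorem wall_botr : rect 1 6 (-1) 0 ⊆ region H := by
  rintro z ⟨h1, h2, h3, h4⟩
  obtain ⟨k, k1, k2, k3, k4⟩ := exists_int_cell 1 5 z.re (by norm_num) (by push_cast; linarith) (by push_cast; linarith)
  rw [mem_region]
  refine ⟨(k, -1), ?_, ?_⟩
  · interval_cases k <;> decide +kernel
  · refine ⟨?_, ?_, ?_, ?_⟩ <;> push_cast <;> linarith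

theorem wall_mid : rect 0 1 1 4 ⊆ region H := by
  rintro z ⟨h1, h2, h3, h4⟩
  obtain ⟨k, k1, k2, k3, k4⟩ := exists_int_cell 1 3 z.im (by norm_num) (by push_cast; linarith) (by push_cast; linarith)
  rw [mem_region]
  refine ⟨(0, k), ?_, ?_⟩
  · interval_cases k <;> decide +kernel
  · refine ⟨?_, ?_, ?_, ?_⟩ <;> push_cast <;> linarith

end Pool.Agent.Omino
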