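import Pool.Agent.Omino.Align
import Pool.Agent.Omino.Shape

set_option autoImplicit false

namespace Pool.Agent.Omino

open Set Topology ComplexConjugate

/-- coordinates of the lower left corner of the cell `c` placed with translation `β` -/
noncomputable def px (β : ℂ) (c : ℤ × ℤ) : ℝ := β.re + c.1
noncomputable def py (β : ℂ) (c : ℤ × ℤ) : ℝ := β.im + c.2

theorem mem_fr_one (β z : ℂ) (c : ℤ × ℤ) :
    fr 1 β z ∈ cell c ↔ z ∈ rect (px β c) (px β c + 1) (py β c) (py β c + 1) := by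
  simp only [fr, cell, rect, mem_ofPred_eq, map_one, one_mul, Complex.sub_re, Complex.sub_im, px, py]
  constructor <;> rintro ⟨h1, h2, h3, h4⟩ <;> refine ⟨?_, ?_, ?_, ?_⟩ <;> linarith

theorem Framed.mem_iff {n : ℕ} {T : Set ℂ} {β : ℂ} {S : Finset (ℤ × ℤ)} (h : Framed n T 1 β S)
    (z : ℂ) : z ∈ T ↔ ∃ c ∈ S, z ∈ rect (px β c) (px β c + 1) (py β c) (py β c + 1) := by
  conv_lhs => rw [h.eq]
  rw [mem_preimage, mem_region]
  simp only [mem_fr_one]

theorem Framed.rect_subset {n : ℕ} {T : Set ℂ} {β : ℂ} {S : Finset (ℤ × ℤ)} (h : Framed n T 1 β S)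
    {c : ℤ × ℤ} (hc : c ∈ S) : rect (px β c) (px β c + 1) (py β c) (py β c + 1) ⊆ T :=
  fun z hz => (h.mem_iff z).2 ⟨c, hc, hz⟩

theorem no_overlap {T T' : Set ℂ} (hd : Disjoint (interior T) (interior T')) {x y a b c d : ℝ}
    (h1 : rect x (x + 1) y (y + 1) ⊆ T) (h2 : rect a b c d ⊆ T') (hab : a < b) (hcd : c < d) :
    x + 1 ≤ a ∨ b ≤ x ∨ y + 1 ≤ c ∨ d ≤ y := by
  by_contra hcon
  simp only [not_or, not_le] at hcon
  obtain ⟨g1, g2, g3, g4⟩ := hcon
  have i1 := interior_mono h1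
  have i2 := interior_mono h2
  rw [interior_rect] at i1 i2
  let w : ℂ := ⟨(max x a + min (x+1) b) / 2, (max y c + min (y+1) d) / 2⟩
  have m1 : max x a < min (x+1) b := by
    rw [max_lt_iff, lt_min_iff, lt_min_iff]
    exact ⟨⟨by linarith, g2⟩, ⟨g1, hab⟩⟩
  have m2 : max y c < min (y+1) d := by
    rw [max_lt_iff, lt_min_iff, lt_min_iff]
    exact ⟨⟨by linarith, g4⟩, ⟨g3, hcd⟩⟩
  have l1 := le_max_left x a
  have l2 := le_max_right x a
  have l3 := le_max_left y c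
  have l4 := le_max_right y c
  have r1 := min_le_left (x+1) b
  have r2 := min_le_right (x+1) b
  have r3 := min_le_left (y+1) d
  have r4 := min_le_right (y+1) d
  have w1 : w ∈ interior T := i1 (by
    simp only [mem_ofPred_eq, w]
    refine ⟨?_, ?_, ?_, ?_⟩ <;> linarith)
  have w2 : w ∈ interior T' := i2 (by
    simp only [mem_ofPred_eq, w]
    refine ⟨?_, ?_, ?_, ?_⟩ <;> linarith)
  exact (Set.disjoint_left.1 hd) w1 w2

/-- the unit square at `(x,y)` does not overlap the walls of the special omino -/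
structure Free (x y : ℝ) : Prop where
  left : x + 1 ≤ -5 ∨ -4 ≤ x ∨ y + 1 ≤ -1 ∨ 5 ≤ y
  right : x + 1 ≤ 5 ∨ 6 ≤ x ∨ y + 1 ≤ -1 ∨ 5 ≤ y
  top : x + 1 ≤ -5 ∨ 6 ≤ x ∨ y + 1 ≤ 4 ∨ 5 ≤ y
  botl : x + 1 ≤ -5 ∨ 0 ≤ x ∨ y + 1 ≤ -1 ∨ 0 ≤ y
  botr : x + 1 ≤ 1 ∨ 6 ≤ x ∨ y + 1 ≤ -1 ∨ 0 ≤ y
  mid : x + 1 ≤ 0 ∨ 1 ≤ x ∨ y + 1 ≤ 1 ∨ 4 ≤ y

theorem Free.door {x y : ℝ} (h : Free x y) (h1 : -1 < x) (h2 : x < 1) (h3 : -1 < y) (h4 : y < 1) :
    y = 0 ∨ (x = 0 ∧ y < 0) := by
  have a1 : y ≤ 0 := by rcases h.mid with h | h | h | h <;> linarith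
  have a2 : 0 ≤ x ∨ 0 ≤ y := by
    rcases h.botl with h | h | h | h
    · linarith
    · exact Or.inl h
    · linarith
    · exact Or.inr h
  have a3 : x ≤ 0 ∨ 0 ≤ y := by
    rcases h.botr with h | h | h | h
    · left; linarith
    · linarith
    · linarith
    · exact Or.inr h
  by_cases hy : 0 ≤ y
  · left; linarith
  · right
    push Not at hy
    refine ⟨le_antisymm ?_ ?_, hy⟩
    · rcases a3 with h | h <;> linarith
    · rcases a2 with h | h <;> linarith

theorem not_mem_H {z : ℂ} (h1 : 0 < z.re) (h2 : z.re < 1) (h3 : 0 < z.im) (h4 : z.im < 1) :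
    z ∉ region H := by
  intro hz
  obtain ⟨c, hc, a1, a2, a3, a4⟩ := mem_region.1 hz
  obtain ⟨a, b⟩ := c
  simp only at a1 a2 a3 a4
  have i1 : a < 1 := by
    have : (a:ℝ) < 1 := by linarith
    exact_mod_cast this
  have i2 : -1 < a := by
    have : (-1:ℝ) < a := by linarith
    exact_mod_cast this
  have i3 : b < 1 := by
    have : (b:ℝ) < 1 := by linarith
    exact_mod_cast this
  have i4 : -1 < b := by
    have : (-1:ℝ) < b := by linarith
    exact_mod_cast this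
  have e1 : a = 0 := by omega
  have e2 : b = 0 := by omega
  subst e1 e2
  revert hc
  decide +kernel

/-- the setting: a tiling by `32`-ominoes which contains the special one -/
structure Setting (𝒯 : Set (Set ℂ)) : Prop where
  til : IsTiling 𝒯
  om : ByOminoes 32 𝒯
  mem : region H ∈ 𝒯

theorem Setting.framed {𝒯 : Set (Set ℂ)} (h : Setting 𝒯) {T : Set ℂ} (hT : T ∈ 𝒯) :
    ∃ β S, Framed 32 T 1 β S := by
  refine all_aligned (by norm_num) h.til h.om h.mem ?_ T hT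
  refine ⟨1, 0, H, ⟨by simp, H_card, ?_, isOmino_H.2⟩, Or.inr (by simp)⟩
  ext z
  simp [fr]

theorem Setting.free {𝒯 : Set (Set ℂ)} (h : Setting 𝒯) {T : Set ℂ} (hT : T ∈ 𝒯)
    (hne : T ≠ region H) {β : ℂ} {S : Finset (ℤ × ℤ)} (hF : Framed 32 T 1 β S) {c : ℤ × ℤ}
    (hc : c ∈ S) : Free (px β c) (py β c) := by
  have hd := h.til.disjoint T hT _ h.mem hne
  have hr := hF.rect_subset hc
  constructor
  · exact no_overlap hd hr wall_left (by norm_num) (by norm_num)
  · exact no_overlap hd hr wall_right (by norm_num) (by norm_num)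
  · exact no_overlap hd hr wall_top (by norm_num) (by norm_num)
  · exact no_overlap hd hr wall_botl (by norm_num) (by norm_num)
  · exact no_overlap hd hr wall_botr (by norm_num) (by norm_num)
  · exact no_overlap hd hr wall_mid (by norm_num) (by norm_num)

theorem Setting.sep {𝒯 : Set (Set ℂ)} (h : Setting 𝒯) {T T' : Set ℂ} (hT : T ∈ 𝒯) (hT' : T' ∈ 𝒯)
    (hne : T ≠ T') {β β' : ℂ} {S S' : Finset (ℤ × ℤ)} (hF : Framed 32 T 1 β S)
    (hF' : Framed 32 T' 1 β' S') {c c' : ℤ × ℤ} (hc : c ∈ S) (hc' : c' ∈ S') :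
    px β c + 1 ≤ px β' c' ∨ px β' c' + 1 ≤ px β c ∨ py β c + 1 ≤ py β' c' ∨
      py β' c' + 1 ≤ py β c :=
  no_overlap (h.til.disjoint T hT T' hT' hne) (hF.rect_subset hc) (hF'.rect_subset hc')
    (by linarith) (by linarith)

theorem px_eq_of {β : ℂ} {c c' : ℤ × ℤ} (h1 : px β c < px β c' + 1) (h2 : px β c' < px β c + 1) :
    c.1 = c'.1 := by
  unfold px at h1 h2
  have i1 : c.1 < c'.1 + 1 := by
    have : (c.1:ℝ) < c'.1 + 1 := by linarith
    exact_mod_cast this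
  have i2 : c'.1 < c.1 + 1 := by
    have : (c'.1:ℝ) < c.1 + 1 := by linarith
    exact_mod_cast this
  omega

theorem py_eq_of {β : ℂ} {c c' : ℤ × ℤ} (h1 : py β c < py β c' + 1) (h2 : py β c' < py β c + 1) :
    c.2 = c'.2 := by
  unfold py at h1 h2
  have i1 : c.2 < c'.2 + 1 := by
    have : (c.2:ℝ) < c'.2 + 1 := by linarith
    exact_mod_cast this
  have i2 : c'.2 < c.2 + 1 := by
    have : (c'.2:ℝ) < c.2 + 1 := by linarith
    exact_mod_cast this
  omega

/-- overlapping cells are equal (and in the same tile) -/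
theorem Setting.overlap {𝒯 : Set (Set ℂ)} (h : Setting 𝒯) {T T' : Set ℂ} (hT : T ∈ 𝒯)
    (hT' : T' ∈ 𝒯) {β β' : ℂ} {S S' : Finset (ℤ × ℤ)} (hF : Framed 32 T 1 β S)
    (hF' : Framed 32 T' 1 β' S') {c c' : ℤ × ℤ} (hc : c ∈ S) (hc' : c' ∈ S')
    (h1 : px β c < px β' c' + 1) (h2 : px β' c' < px β c + 1)
    (h3 : py β c < py β' c' + 1) (h4 : py β' c' < py β c + 1) : T = T' := by
  by_contra hne
  rcases h.sep hT hT' hne hF hF' hc hc' with g | g | g | g <;> linarith

theorem Setting.cover {𝒯 : Set (Set ℂ)} (h : Setting 𝒯) {z : ℂ} (hz : z ∉ region H) :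
    ∃ T ∈ 𝒯, T ≠ region H ∧ z ∈ T := by
  have : z ∈ ⋃₀ 𝒯 := by rw [h.til.cover]; trivial
  obtain ⟨T, hT, hzT⟩ := this
  refine ⟨T, hT, ?_, hzT⟩
  rintro rfl
  exact hz hzT

/-- the frame of a tile is essentially unique: two frames of one tile differ by integers -/
theorem Setting.door {𝒯 : Set (Set ℂ)} (h : Setting 𝒯) {T : Set ℂ} (hT : T ∈ 𝒯)
    (hne : T ≠ region H) {β : ℂ} {S : Finset (ℤ × ℤ)} (hF : Framed 32 T 1 β S) {c : ℤ × ℤ}
    (hc : c ∈ S) (h1 : -1 < px β c) (h2 : px β c < 1) (h3 : -1 < py β c) (h4 : py β c < 1) :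
    py β c = 0 := by
  rcases (h.free hT hne hF hc).door h1 h2 h3 h4 with h0 | ⟨hx, hy⟩
  · exact h0
  exfalso
  set y := py β c with hydef
  have hp : (⟨1/2, 1 + y/2⟩ : ℂ) ∉ region H := by
    apply not_mem_H <;> simp only <;> linarith
  obtain ⟨T', hT', hne', hpT'⟩ := h.cover hp
  -- use the same frame if `T' = T`
  by_cases hTT : T' = T
  · subst hTT
    obtain ⟨c', hc', a1, a2, a3, a4⟩ := (hF.mem_iff _).1 hpT'
    simp only at a1 a2 a3 a4
    have hd' := (h.free hT hne hF hc').door (by linarith) (by linarith) (by linarith) (by linarith)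
    have e1 : c.1 = c'.1 := by
      apply px_eq_of (β := β)
      · linarith
      · rcases hd' with hd' | ⟨hd', _⟩
        · linarith
        · linarith
    have e2 : c.2 = c'.2 := by
      apply py_eq_of (β := β)
      · linarith
      · rcases hd' with hd' | ⟨_, hd'⟩ <;> linarith
    have : py β c' = y := by rw [hydef]; unfold py; rw [e2]
    linarith
  · obtain ⟨β', S', hF'⟩ := h.framed hT'
    obtain ⟨c', hc', a1, a2, a3, a4⟩ := (hF'.mem_iff _).1 hpT'
    simp only at a1 a2 a3 a4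
    rcases h.sep hT hT' (Ne.symm hTT) hF hF' hc hc' with g | g | g | g
    · linarith
    · linarith
    · have hd' := (h.free hT' hne' hF' hc').door (by linarith) (by linarith) (by linarith) (by linarith)
      rcases hd' with hd' | ⟨_, hd'⟩ <;> linarith
    · linarith

/-- the index set of the 33 sample points -/
noncomputable def K : Finset (ℤ × ℤ) :=
  ((Finset.Icc (-4) 4) ×ˢ (Finset.Icc 0 3)).filter (fun c => c.1 ≠ 0 ∨ c.2 = 0)

theorem K_card : K.card = 33 := by decide +kernel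

theorem mem_K {c : ℤ × ℤ} : c ∈ K ↔ (-4 ≤ c.1 ∧ c.1 ≤ 4 ∧ 0 ≤ c.2 ∧ c.2 ≤ 3) ∧ (c.1 ≠ 0 ∨ c.2 = 0) := by
  simp only [K, Finset.mem_filter, Finset.mem_product, Finset.mem_Icc]
  tauto

/-- sample points -/
noncomputable def smp (c : ℤ × ℤ) : ℂ := ⟨1/2 + 11/10 * c.1, 3/10 + 11/10 * c.2⟩

/-- a tile does not contain all the sample points -/
theorem pigeon {T : Set ℂ} {β : ℂ} {S : Finset (ℤ × ℤ)} (hF : Framed 32 T 1 β S) :
    ¬ ∀ k ∈ K, smp k ∈ T := by
  intro hall
  have hex : ∀ k ∈ K, ∃ c ∈ S, smp k ∈ rect (px β c) (px β c + 1) (py β c) (py β c + 1) :=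
    fun k hk => (hF.mem_iff _).1 (hall k hk)
  choose! f hf1 hf2 using hex
  obtain ⟨k, hk, k', hk', hne, heq⟩ := Finset.exists_ne_map_eq_of_card_lt_of_maps_to
    (s := K) (t := S) (by rw [K_card, hF.card]; norm_num) (f := f) (fun k hk => hf1 k hk)
  obtain ⟨a1, a2, a3, a4⟩ := hf2 k hk
  obtain ⟨b1, b2, b3, b4⟩ := hf2 k' hk'
  rw [← heq] at b1 b2 b3 b4
  simp only [smp] at a1 a2 a3 a4 b1 b2 b3 b4
  apply hne
  have e1 : k.1 = k'.1 := by
    have i1 : k.1 < k'.1 + 1 := by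
      have : (k.1:ℝ) < k'.1 + 1 := by linarith
      exact_mod_cast this
    have i2 : k'.1 < k.1 + 1 := by
      have : (k'.1:ℝ) < k.1 + 1 := by linarith
      exact_mod_cast this
    omega
  have e2 : k.2 = k'.2 := by
    have i1 : k.2 < k'.2 + 1 := by
      have : (k.2:ℝ) < k'.2 + 1 := by linarith
      exact_mod_cast this
    have i2 : k'.2 < k.2 + 1 := by
      have : (k'.2:ℝ) < k.2 + 1 := by linarith
      exact_mod_cast this
    omega
  exact Prod.ext e1 e2

/-- a sample point is in the open box, away from the walls -/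
theorem smp_not_mem_H {k : ℤ × ℤ} (hk : k ∈ K) : smp k ∉ region H := by
  intro hz
  obtain ⟨c, hc, a1, a2, a3, a4⟩ := mem_region.1 hz
  rw [mem_K] at hk
  obtain ⟨a, b⟩ := c
  obtain ⟨m, n⟩ := k
  simp only [smp] at a1 a2 a3 a4 hk
  obtain ⟨⟨k1, k2, k3, k4⟩, k5⟩ := hk
  -- ten times the inequalities
  have i1 : 10 * a ≤ 5 + 11 * m := by
    have : (10 * (a:ℝ)) ≤ 5 + 11 * m := by linarith
    exact_mod_cast this
  have i2 : 5 + 11 * m ≤ 10 * a + 10 := by
    have : 5 + 11 * (m:ℝ) ≤ 10 * a + 10 := by linarith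
    exact_mod_cast this
  have i3 : 10 * b ≤ 3 + 11 * n := by
    have : (10 * (b:ℝ)) ≤ 3 + 11 * n := by linarith
    exact_mod_cast this
  have i4 : 3 + 11 * n ≤ 10 * b + 10 := by
    have : 3 + 11 * (n:ℝ) ≤ 10 * b + 10 := by linarith
    exact_mod_cast this
  have ha : a = m := by omega
  have hb : b = n := by omega
  subst ha hb
  have : (a, b) ∉ H := by
    interval_cases a <;> interval_cases b <;> first | (exfalso; omega) | decide +kernel
  exact this hc

/-- all cells of a tile which has one cell in the box and which does not pass the door are in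
the box -/
theorem Setting.closure_box {𝒯 : Set (Set ℂ)} (h : Setting 𝒯) {T : Set ℂ} (hT : T ∈ 𝒯)
    (hne : T ≠ region H) {β : ℂ} {S : Finset (ℤ × ℤ)} (hF : Framed 32 T 1 β S)
    (hno : ¬ ((∃ c ∈ S, px β c = 0 ∧ py β c = 0) ∧ (∃ c ∈ S, px β c = 0 ∧ py β c = -1)))
    (hex : ∃ c ∈ S, -4 ≤ px β c ∧ px β c ≤ 4 ∧ 0 ≤ py β c ∧ py β c ≤ 3) :
    ∀ c ∈ S, -4 ≤ px β c ∧ px β c ≤ 4 ∧ 0 ≤ py β c ∧ py β c ≤ 3 := by
  classical
  by_contra hcon
  set S1 := S.filter (fun c => -4 ≤ px β c ∧ px β c ≤ 4 ∧ 0 ≤ py β c ∧ py β c ≤ 3) with hS1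
  have hne1 : S1.Nonempty := by
    obtain ⟨c, hc, hc'⟩ := hex
    exact ⟨c, Finset.mem_filter.2 ⟨hc, hc'⟩⟩
  have hne2 : S1 ≠ S := by
    intro heq
    apply hcon
    intro c hc
    rw [← heq] at hc
    exact (Finset.mem_filter.1 hc).2
  obtain ⟨c, hc, c', hc', hc'1, hadj⟩ := exists_adj hF.disk S1 (Finset.filter_subset _ _) hne1 hne2
  obtain ⟨hcS, b1, b2, b3, b4⟩ := Finset.mem_filter.1 hc
  apply hc'1
  rw [hS1, Finset.mem_filter]
  refine ⟨hc', ?_⟩
  have hf := h.free hT hne hF hc'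
  obtain ⟨f1, f2, f3, f4, f5, f6⟩ := hf
  rcases hadj with rfl | rfl | rfl | rfl
  · have ex : px β (c.1 + 1, c.2) = px β c + 1 := by simp [px]; ring
    have ey : py β (c.1 + 1, c.2) = py β c := by simp [py]
    rw [ex, ey] at f2 ⊢
    refine ⟨by linarith, ?_, by linarith, by linarith⟩
    rcases f2 with g | g | g | g <;> linarith
  · have ex : px β (c.1 - 1, c.2) = px β c - 1 := by simp [px]; ring
    have ey : py β (c.1 - 1, c.2) = py β c := by simp [py]
    rw [ex, ey] at f1 ⊢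
    refine ⟨?_, by linarith, by linarith, by linarith⟩
    rcases f1 with g | g | g | g <;> linarith
  · have ex : px β (c.1, c.2 + 1) = px β c := by simp [px]
    have ey : py β (c.1, c.2 + 1) = py β c + 1 := by simp [py]; ring
    rw [ex, ey] at f3 ⊢
    refine ⟨by linarith, by linarith, by linarith, ?_⟩
    rcases f3 with g | g | g | g <;> linarith
  · have ex : px β (c.1, c.2 - 1) = px β c := by simp [px]
    have ey : py β (c.1, c.2 - 1) = py β c - 1 := by simp [py]; ring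
    rw [ex, ey] at f4 f5 ⊢
    refine ⟨by linarith, by linarith, ?_, by linarith⟩
    by_contra hneg
    push Not at hneg
    have g1 : 0 ≤ px β c := by rcases f4 with g | g | g | g <;> linarith
    have g2 : px β c ≤ 0 := by rcases f5 with g | g | g | g <;> linarith
    have g3 : py β c = 0 := h.door hT hne hF hcS (by linarith) (by linarith) (by linarith) (by linarith)
    apply hno
    exact ⟨⟨c, hcS, by linarith, g3⟩, ⟨(c.1, c.2 - 1), hc', by rw [ex]; linarith, by rw [ey]; linarith⟩⟩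

/-- a cell covering a sample point is in the box -/
theorem Setting.smp_box {𝒯 : Set (Set ℂ)} (h : Setting 𝒯) {T : Set ℂ} (hT : T ∈ 𝒯)
    (hne : T ≠ region H) {β : ℂ} {S : Finset (ℤ × ℤ)} (hF : Framed 32 T 1 β S) {c : ℤ × ℤ}
    (hc : c ∈ S) {k : ℤ × ℤ} (hk : k ∈ K)
    (hm : smp k ∈ rect (px β c) (px β c + 1) (py β c) (py β c + 1)) :
    (-4 ≤ px β c ∧ px β c ≤ 4 ∧ 0 ≤ py β c ∧ py β c ≤ 3) ∧
    (k.1 ≤ -1 → (px β c ≤ -1 ∨ (-1 < px β c ∧ px β c < 0 ∧ py β c = 0))) ∧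
    (1 ≤ k.1 → (1 ≤ px β c ∨ (0 < px β c ∧ px β c < 1 ∧ py β c = 0))) := by
  obtain ⟨f1, f2, f3, f4, f5, f6⟩ := h.free hT hne hF hc
  obtain ⟨a1, a2, a3, a4⟩ := hm
  rw [mem_K] at hk
  obtain ⟨m, n⟩ := k
  simp only [smp] at a1 a2 a3 a4 hk
  obtain ⟨⟨k1, k2, k3, k4⟩, k5⟩ := hk
  have r1 : (-4:ℝ) ≤ m := by exact_mod_cast k1
  have r2 : (m:ℝ) ≤ 4 := by exact_mod_cast k2
  have r3 : (0:ℝ) ≤ n := by exact_mod_cast k3
  have r4 : (n:ℝ) ≤ 3 := by exact_mod_cast k4
  have hx1 : -4 ≤ px β c := by rcases f1 with g | g | g | g <;> linarith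
  have hx2 : px β c ≤ 4 := by rcases f2 with g | g | g | g <;> linarith
  have hy2 : py β c ≤ 3 := by rcases f3 with g | g | g | g <;> linarith
  have hm3 : m ≤ -1 ∨ m = 0 ∨ 1 ≤ m := by omega
  have hy1 : 0 ≤ py β c := by
    rcases hm3 with hm | hm | hm
    · have : (m:ℝ) ≤ -1 := by exact_mod_cast hm
      rcases f4 with g | g | g | g <;> linarith
    · subst hm
      have hn : n = 0 := by rcases k5 with h | h; exact absurd rfl h; exact h
      subst hn
      push_cast at *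
      exact (h.door hT hne hF hc (by linarith) (by linarith) (by linarith) (by linarith)).ge
    · have : (1:ℝ) ≤ m := by exact_mod_cast hm
      rcases f5 with g | g | g | g <;> linarith
  refine ⟨⟨hx1, hx2, hy1, hy2⟩, ?_, ?_⟩
  · intro hm
    simp only at hm
    have : (m:ℝ) ≤ -1 := by exact_mod_cast hm
    by_cases hlt : px β c ≤ -1
    · exact Or.inl hlt
    · push Not at hlt
      right
      refine ⟨hlt, by linarith, ?_⟩
      rcases f6 with g | g | g | g <;> linarith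
  · intro hm
    simp only at hm
    have : (1:ℝ) ≤ m := by exact_mod_cast hm
    by_cases hlt : 1 ≤ px β c
    · exact Or.inl hlt
    · push Not at hlt
      right
      refine ⟨by linarith, hlt, ?_⟩
      rcases f6 with g | g | g | g <;> linarith

end Pool.Agent.Omino
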